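import Pool.Agent.Work.MP_6229d2_co.Thr.Down

set_option autoImplicit false

/-! A regular choice of at most nine continuations at each vertex. -/

namespace Pool.Agent.Work.MP_6229d2_co.Thr

open scoped Classical
open Finset

/-- cyclic windows of length `m` in a finite set with more than `m` elements -/
lemma exists_window {V : Type} (s : Finset V) (m : ℕ) (hm : m + 1 ≤ s.card) :
    ∃ R : V → Finset V, (∀ x ∈ s, R x ⊆ s) ∧ (∀ x ∈ s, x ∉ R x) ∧ (∀ x ∈ s, (R x).card = m) ∧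
      (∀ w ∈ s, (s.filter fun x => w ∈ R x).card = m) ∧
      ∀ x w₁ w₂, x ∈ s → w₁ ∈ R x → w₂ ∈ R x → w₁ ≠ w₂ → w₂ ∈ R w₁ ∨ w₁ ∈ R w₂ := by
  obtain ⟨d, hd⟩ : ∃ d, d = s.card := ⟨_, rfl⟩
  have : NeZero d := ⟨by omega⟩
  obtain ⟨f⟩ : Nonempty (s ≃ ZMod d) := by
    rw [← Fintype.card_eq, ZMod.card, Fintype.card_coe, hd]
  obtain ⟨i, hinj, hsurj⟩ : ∃ i : V → ZMod d, (∀ x ∈ s, ∀ y ∈ s, i x = i y → x = y) ∧
      ∀ z, ∃ x ∈ s, i x = z := by
    refine ⟨fun x => if h : x ∈ s then f ⟨x, h⟩ else 0, ?_, ?_⟩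
    · intro x hx y hy h
      simp only [dif_pos hx, dif_pos hy] at h
      have := f.injective h
      exact congrArg Subtype.val this
    · intro z
      refine ⟨(f.symm z).1, (f.symm z).2, ?_⟩
      simp only [dif_pos (f.symm z).2]
      exact f.apply_symm_apply z
  have hcard : ((univ : Finset (ZMod d)).filter fun z => 1 ≤ z.val ∧ z.val ≤ m).card = m := by
    have h1 : (Finset.Icc 1 m).card = m := by simp
    refine Eq.trans ?_ h1
    refine card_bij (fun z _ => z.val) ?_ ?_ ?_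
    · intro z hz
      rw [mem_filter] at hz
      rw [mem_Icc]
      exact hz.2
    · intro z _ z' _ h
      exact ZMod.val_injective d h
    · intro j hj
      rw [mem_Icc] at hj
      refine ⟨(j : ZMod d), ?_, ?_⟩
      · rw [mem_filter, ZMod.val_natCast_of_lt (by omega)]
        exact ⟨mem_univ _, hj⟩
      · exact ZMod.val_natCast_of_lt (by omega)
  refine ⟨fun x => s.filter fun y => 1 ≤ (i y - i x).val ∧ (i y - i x).val ≤ m,
    fun x _ => filter_subset _ _, ?_, ?_, ?_, ?_⟩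
  · intro x _ h
    rw [mem_filter, sub_self, ZMod.val_zero] at h
    omega
  · intro x _
    refine Eq.trans ?_ hcard
    refine card_bij (fun y _ => i y - i x) ?_ ?_ ?_
    · intro y hy
      rw [mem_filter] at hy ⊢
      exact ⟨mem_univ _, hy.2⟩
    · intro y hy y' hy' h
      rw [mem_filter] at hy hy'
      exact hinj y hy.1 y' hy'.1 (sub_left_injective h)
    · intro z hz
      rw [mem_filter] at hz
      obtain ⟨y, hy, hyz⟩ := hsurj (z + i x)
      refine ⟨y, ?_, ?_⟩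
      · rw [mem_filter, hyz, add_sub_cancel_right]
        exact ⟨hy, hz.2⟩
      · rw [hyz, add_sub_cancel_right]
  · intro w hw
    refine Eq.trans ?_ hcard
    refine card_bij (fun x _ => i w - i x) ?_ ?_ ?_
    · intro x hx
      rw [mem_filter, mem_filter] at hx
      rw [mem_filter]
      exact ⟨mem_univ _, hx.2.2⟩
    · intro y hy y' hy' h
      rw [mem_filter] at hy hy'
      exact hinj y hy.1 y' hy'.1 (sub_right_injective h)
    · intro z hz
      rw [mem_filter] at hz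
      obtain ⟨y, hy, hyz⟩ := hsurj (i w - z)
      refine ⟨y, ?_, ?_⟩
      · rw [mem_filter, mem_filter, hyz, sub_sub_cancel]
        exact ⟨hy, hw, hz.2⟩
      · rw [hyz, sub_sub_cancel]
  · intro x w₁ w₂ _ h1 h2 hne
    rw [mem_filter] at h1 h2
    rw [mem_filter, mem_filter]
    have e1 : i w₂ - i w₁ = (i w₂ - i x) - (i w₁ - i x) := by ring
    have e2 : i w₁ - i w₂ = (i w₁ - i x) - (i w₂ - i x) := by ring
    rcases lt_trichotomy (i w₁ - i x).val (i w₂ - i x).val with h | h | h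
    · left
      rw [e1, ZMod.val_sub h.le]
      exact ⟨h2.1, by omega, by omega⟩
    · exact absurd (hinj _ h1.1 _ h2.1 (sub_left_injective (ZMod.val_injective d h))) hne
    · right
      rw [e2, ZMod.val_sub h.le]
      exact ⟨h1.1, by omega, by omega⟩

variable {V : Type} [Fintype V]

/-- a regular choice of continuations: after the edge `x v` one may go on to the members of
`Ch x v` -/
structure CS (G : SimpleGraph V) where
  Ch : V → V → Finset V
  m : V → ℕ
  adj : ∀ {x v w}, G.Adj x v → w ∈ Ch x v → G.Adj v w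
  ne : ∀ {x v w}, G.Adj x v → w ∈ Ch x v → w ≠ x
  card : ∀ {x v}, G.Adj x v → (Ch x v).card = m v
  pred : ∀ {v w}, G.Adj v w → ((nbr G v).filter fun x => w ∈ Ch x v).card = m v
  cyc : ∀ {x v w₁ w₂}, G.Adj x v → w₁ ∈ Ch x v → w₂ ∈ Ch x v → w₁ ≠ w₂ →
    w₂ ∈ Ch w₁ v ∨ w₁ ∈ Ch w₂ v

theorem exists_CS (G : SimpleGraph V) :
    ∃ C : CS G, ∀ v, C.m v = min ((nbr G v).card - 1) 9 := by
  have h : ∀ v, ∃ R : V → Finset V, (∀ x ∈ nbr G v, R x ⊆ nbr G v) ∧ (∀ x ∈ nbr G v, x ∉ R x) ∧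
      (∀ x ∈ nbr G v, (R x).card = min ((nbr G v).card - 1) 9) ∧
      (∀ w ∈ nbr G v, ((nbr G v).filter fun x => w ∈ R x).card =
        min ((nbr G v).card - 1) 9) ∧
      ∀ x w₁ w₂, x ∈ nbr G v → w₁ ∈ R x → w₂ ∈ R x → w₁ ≠ w₂ → w₂ ∈ R w₁ ∨ w₁ ∈ R w₂ := by
    intro v
    rcases Nat.eq_zero_or_pos (nbr G v).card with h0 | h0
    · rw [card_eq_zero] at h0
      rw [h0]
      exact ⟨fun _ => ∅, by simp, by simp, by simp, by simp, by simp⟩
    · exact exists_window _ _ (by omega)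
  choose R hR1 hR2 hR3 hR4 hR5 using h
  refine ⟨⟨fun x v => R v x, fun v => min ((nbr G v).card - 1) 9, ?_, ?_, ?_, ?_, ?_⟩,
    fun v => rfl⟩
  · intro x v w hxv hw
    exact mem_nbr.mp (hR1 v x (mem_nbr.mpr hxv.symm) hw)
  · intro x v w hxv hw
    rintro rfl
    exact hR2 v w (mem_nbr.mpr hxv.symm) hw
  · intro x v hxv
    exact hR3 v x (mem_nbr.mpr hxv.symm)
  · intro v w hvw
    exact hR4 v w (mem_nbr.mpr hvw)
  · intro x v w₁ w₂ hxv h1 h2 hne
    exact hR5 v x w₁ w₂ (mem_nbr.mpr hxv.symm) h1 h2 hne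

end Pool.Agent.Work.MP_6229d2_co.Thr
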