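import Pool.Agent.Work.MP_6229d2_co.Sparse

set_option autoImplicit false

/-! Down-sets with a small boundary are locally uniform. -/

namespace Pool.Agent.Work.MP_6229d2_co.Thr

open Finset

variable {α : Type} [Fintype α] [DecidableEq α]

/-- the members of `A` to which `e` cannot be added -/
def Dd (A : Finset (Finset α)) (e : α) : Finset (Finset α) :=
  A.filter fun F => e ∉ F ∧ insert e F ∉ A

/-- the number of members of `A` with trace `σ` on `S` -/
def Nn (A : Finset (Finset α)) (S σ : Finset α) : ℕ := (A.filter fun F => F ∩ S = σ).card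

omit [Fintype α] in
lemma Nn_step (A : Finset (Finset α)) {S σ : Finset α} {e : α} (heS : e ∈ S) (heσ : e ∉ σ) :
    Nn A S σ ≤ Nn A S (insert e σ) + (Dd A e).card := by
  unfold Nn Dd
  have h1 : (A.filter fun F => F ∩ S = σ) ⊆
      (A.filter fun F => F ∩ S = σ ∧ insert e F ∈ A) ∪
        A.filter fun F => e ∉ F ∧ insert e F ∉ A := by
    intro F hF
    rw [mem_filter] at hF
    rw [mem_union, mem_filter, mem_filter]
    have heF : e ∉ F := fun h => heσ (hF.2 ▸ mem_inter.mpr ⟨h, heS⟩)
    by_cases h : insert e F ∈ A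
    · exact Or.inl ⟨hF.1, hF.2, h⟩
    · exact Or.inr ⟨hF.1, heF, h⟩
  have h2 : (A.filter fun F => F ∩ S = σ ∧ insert e F ∈ A).card ≤
      (A.filter fun F => F ∩ S = insert e σ).card := by
    refine card_le_card_of_injOn (fun F => insert e F) ?_ ?_
    · intro F hF
      rw [mem_coe, mem_filter] at hF
      rw [mem_coe, mem_filter]
      refine ⟨hF.2.2, ?_⟩
      rw [insert_inter_of_mem heS, hF.2.1]
    · intro F hF F' hF' h
      rw [mem_coe, mem_filter] at hF hF'
      have heF : e ∉ F := fun h => heσ (hF.2.1 ▸ mem_inter.mpr ⟨h, heS⟩)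
      have heF' : e ∉ F' := fun h => heσ (hF'.2.1 ▸ mem_inter.mpr ⟨h, heS⟩)
      have h' : insert e F = insert e F' := h
      rw [← erase_insert heF, h', erase_insert heF']
  exact (card_le_card h1).trans ((card_union_le _ _).trans (Nat.add_le_add_right h2 _))

omit [Fintype α] in
lemma Nn_le (A : Finset (Finset α)) (S : Finset α) : ∀ (τ σ : Finset α), σ ⊆ S → S \ σ = τ →
    Nn A S σ ≤ Nn A S S + ∑ e ∈ τ, (Dd A e).card := by
  intro τ
  induction τ using Finset.induction_on with
  | empty =>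
    intro σ hσ h
    rw [sdiff_eq_empty_iff_subset] at h
    rw [hσ.antisymm h]
    simp
  | insert e τ he ih =>
    intro σ hσ h
    have he' : e ∈ S \ σ := h ▸ mem_insert_self e τ
    rw [mem_sdiff] at he'
    have h1 := Nn_step A he'.1 he'.2
    have h2 := ih (insert e σ) (insert_subset he'.1 hσ) (by
      rw [sdiff_insert, h, erase_insert he])
    rw [sum_insert he]
    omega

omit [Fintype α] in
lemma Nn_ge {A : Finset (Finset α)} (hA : IsLowerSet (A : Set (Finset α))) {S σ : Finset α}
    (hσ : σ ⊆ S) : Nn A S S ≤ Nn A S σ := by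
  unfold Nn
  refine card_le_card_of_injOn (fun F => F \ (S \ σ)) ?_ ?_
  · intro F hF
    rw [mem_coe, mem_filter] at hF
    rw [mem_coe, mem_filter]
    refine ⟨hA sdiff_subset hF.1, ?_⟩
    have hSF : S ⊆ F := inter_eq_right.mp hF.2
    ext z
    simp only [mem_inter, mem_sdiff, not_and, not_not]
    constructor
    · rintro ⟨⟨_, h1⟩, h2⟩
      exact h1 h2
    · intro h
      exact ⟨⟨hSF (hσ h), fun _ => h⟩, hσ h⟩
  · intro F hF F' hF' h
    rw [mem_coe, mem_filter] at hF hF'
    have hSF : S ⊆ F := inter_eq_right.mp hF.2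
    have hSF' : S ⊆ F' := inter_eq_right.mp hF'.2
    have h' : F \ (S \ σ) = F' \ (S \ σ) := h
    have e1 : F = (F \ (S \ σ)) ∪ (S \ σ) := by
      rw [sdiff_union_of_subset (sdiff_subset.trans hSF)]
    have e2 : F' = (F' \ (S \ σ)) ∪ (S \ σ) := by
      rw [sdiff_union_of_subset (sdiff_subset.trans hSF')]
    rw [e1, e2, h']

omit [Fintype α] in
lemma Nn_sum (A : Finset (Finset α)) (S : Finset α) (U : Finset α → Prop) [DecidablePred U]
    (hU : ∀ F, U F ↔ U (F ∩ S)) :
    (A.filter U).card = ∑ σ ∈ S.powerset.filter U, Nn A S σ := by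
  have h1 : ∀ F ∈ A.filter U, F ∩ S ∈ S.powerset.filter U := by
    intro F hF
    rw [mem_filter] at hF ⊢
    exact ⟨mem_powerset.mpr inter_subset_right, (hU F).mp hF.2⟩
  rw [card_eq_sum_card_fiberwise h1]
  refine sum_congr rfl fun σ hσ => ?_
  unfold Nn
  congr 1
  ext F
  rw [mem_filter] at hσ
  rw [mem_filter, mem_filter, mem_filter]
  constructor
  · rintro ⟨⟨h2, _⟩, h3⟩; exact ⟨h2, h3⟩
  · rintro ⟨h2, h3⟩
    refine ⟨⟨h2, ?_⟩, h3⟩
    rw [hU, h3]
    exact hσ.2

omit [Fintype α] in
lemma card_le_Nn {A : Finset (Finset α)} (S : Finset α) :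
    A.card ≤ 2 ^ S.card * (Nn A S S + ∑ e ∈ S, (Dd A e).card) := by
  have h1 := Nn_sum A S (fun _ => True) (fun _ => Iff.rfl)
  rw [filter_true_of_mem (fun _ _ => trivial), filter_true_of_mem (fun _ _ => trivial)] at h1
  rw [h1, ← card_powerset, ← smul_eq_mul, ← sum_const]
  refine sum_le_sum fun σ hσ => ?_
  refine (Nn_le A S (S \ σ) σ (mem_powerset.mp hσ) rfl).trans ?_
  exact Nat.add_le_add_left (sum_le_sum_of_subset sdiff_subset) _

omit [Fintype α] in
/-- if no member contains `S` then the boundary in the directions of `S` is large -/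
theorem card_le_of_no {A : Finset (Finset α)} (S : Finset α) (h : ∀ F ∈ A, ¬ S ⊆ F) :
    A.card ≤ 2 ^ S.card * ∑ e ∈ S, (Dd A e).card := by
  have h1 := card_le_Nn (A := A) S
  have h2 : Nn A S S = 0 := by
    unfold Nn
    rw [card_eq_zero, filter_eq_empty_iff]
    intro F hF h'
    exact h F hF (inter_eq_right.mp h')
  rwa [h2, zero_add] at h1

/-- **local comparison** -/
theorem local_ge {A : Finset (Finset α)} (hA : IsLowerSet (A : Set (Finset α))) (S : Finset α)
    (U : Finset α → Prop) [DecidablePred U] (hU : ∀ F, U F ↔ U (F ∩ S)) :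
    (A.card : ℝ) * (((univ : Finset (Finset α)).filter U).card / 2 ^ Fintype.card α) -
      2 ^ S.card * ∑ e ∈ S, ((Dd A e).card : ℝ) ≤ ((A.filter U).card : ℝ) := by
  obtain ⟨u, hu⟩ : ∃ u, u = (S.powerset.filter U).card := ⟨_, rfl⟩
  have hu' : u ≤ 2 ^ S.card := by
    rw [hu, ← card_powerset]
    exact card_filter_le _ _
  -- the uniform measure
  have e1 : ∀ σ ⊆ S, Nn (univ : Finset (Finset α)) S σ = Nn (univ : Finset (Finset α)) S S := by
    intro σ hσ
    refine le_antisymm ?_ (Nn_ge (by intro _ _ _ _; simp) hσ)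
    have h1 := Nn_le (univ : Finset (Finset α)) S (S \ σ) σ hσ rfl
    have h2 : ∀ e : α, Dd (univ : Finset (Finset α)) e = ∅ := by
      intro e
      unfold Dd
      rw [filter_eq_empty_iff]
      intro F _ h
      exact h.2 (mem_univ _)
    simp_rw [h2] at h1
    simpa using h1
  obtain ⟨q, hq⟩ : ∃ q, q = Nn (univ : Finset (Finset α)) S S := ⟨_, rfl⟩
  have e2 : ((univ : Finset (Finset α)).filter U).card = u * q := by
    rw [Nn_sum univ S U hU, sum_congr rfl (g := fun _ => q), sum_const, smul_eq_mul, hu]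
    intro σ hσ
    rw [mem_filter, mem_powerset] at hσ
    rw [e1 σ hσ.1, hq]
  have e3 : 2 ^ Fintype.card α = 2 ^ S.card * q := by
    have h1 := Nn_sum (univ : Finset (Finset α)) S (fun _ => True) (fun _ => Iff.rfl)
    rw [filter_true_of_mem (fun _ _ => trivial), filter_true_of_mem (fun _ _ => trivial),
      card_univ, Fintype.card_finset, sum_congr rfl (g := fun _ => q), sum_const, smul_eq_mul,
      card_powerset] at h1
    · exact h1
    · intro σ hσ
      rw [mem_powerset] at hσ
      rw [e1 σ hσ, hq]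
  have hqpos : 0 < q := by
    rcases Nat.eq_zero_or_pos q with h | h
    · rw [h, mul_zero] at e3
      have : 0 < 2 ^ Fintype.card α := by positivity
      omega
    · exact h
  have e4 : (((univ : Finset (Finset α)).filter U).card : ℝ) / 2 ^ Fintype.card α =
      u / 2 ^ S.card := by
    have h1 : ((2 : ℝ) ^ Fintype.card α) = 2 ^ S.card * q := by exact_mod_cast e3
    have h2 : (0 : ℝ) < q := by exact_mod_cast hqpos
    rw [h1, e2]
    push_cast
    rw [mul_div_mul_right _ _ h2.ne']
  -- the family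
  have e5 : (u : ℝ) * Nn A S S ≤ ((A.filter U).card : ℝ) := by
    rw [Nn_sum A S U hU, hu]
    have h1 : (S.powerset.filter U).card * Nn A S S ≤ ∑ σ ∈ S.powerset.filter U, Nn A S σ := by
      rw [← smul_eq_mul, ← sum_const]
      refine sum_le_sum fun σ hσ => ?_
      rw [mem_filter, mem_powerset] at hσ
      exact Nn_ge hA hσ.1
    exact_mod_cast h1
  have e6 : (A.card : ℝ) ≤ 2 ^ S.card * (Nn A S S + ∑ e ∈ S, ((Dd A e).card : ℝ)) := by
    exact_mod_cast card_le_Nn (A := A) S
  rw [e4]
  have h2 : (0 : ℝ) < 2 ^ S.card := by positivity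
  have hD : (0 : ℝ) ≤ ∑ e ∈ S, ((Dd A e).card : ℝ) := sum_nonneg fun _ _ => Nat.cast_nonneg _
  have hu0 : (0 : ℝ) ≤ u := Nat.cast_nonneg _
  have hu1 : (u : ℝ) ≤ 2 ^ S.card := by exact_mod_cast hu'
  calc (A.card : ℝ) * (u / 2 ^ S.card) - 2 ^ S.card * ∑ e ∈ S, ((Dd A e).card : ℝ)
      ≤ (2 ^ S.card * (Nn A S S + ∑ e ∈ S, ((Dd A e).card : ℝ))) * (u / 2 ^ S.card) -
        2 ^ S.card * ∑ e ∈ S, ((Dd A e).card : ℝ) := by
        refine sub_le_sub_right (mul_le_mul_of_nonneg_right e6 (by positivity)) _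
    _ = u * Nn A S S + u * ∑ e ∈ S, ((Dd A e).card : ℝ) -
        2 ^ S.card * ∑ e ∈ S, ((Dd A e).card : ℝ) := by
        field_simp
    _ ≤ u * Nn A S S := by
        have := mul_le_mul_of_nonneg_right hu1 hD
        linarith
    _ ≤ _ := e5

omit [Fintype α] in
/-- an event that does not involve `e` -/
lemma with_edge {A : Finset (Finset α)} (e : α) (U : Finset α → Prop)
    [DecidablePred U] (hU : ∀ F, U (insert e F) ↔ U F) :
    (A.filter U).card ≤ 2 * (A.filter fun F => e ∈ F ∧ U F).card + (Dd A e).card := by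
  have h1 : A.filter U ⊆ (A.filter fun F => e ∈ F ∧ U F) ∪
      ((A.filter fun F => e ∉ F ∧ insert e F ∈ A ∧ U F) ∪ Dd A e) := by
    intro F hF
    rw [mem_filter] at hF
    unfold Dd
    rw [mem_union, mem_union, mem_filter, mem_filter, mem_filter]
    by_cases he : e ∈ F
    · exact Or.inl ⟨hF.1, he, hF.2⟩
    · by_cases h : insert e F ∈ A
      · exact Or.inr (Or.inl ⟨hF.1, he, h, hF.2⟩)
      · exact Or.inr (Or.inr ⟨hF.1, he, h⟩)
  have h2 : (A.filter fun F => e ∉ F ∧ insert e F ∈ A ∧ U F).card ≤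
      (A.filter fun F => e ∈ F ∧ U F).card := by
    refine card_le_card_of_injOn (fun F => insert e F) ?_ ?_
    · intro F hF
      rw [mem_coe, mem_filter] at hF
      rw [mem_coe, mem_filter]
      exact ⟨hF.2.2.1, mem_insert_self e F, (hU F).mpr hF.2.2.2⟩
    · intro F hF F' hF' h
      rw [mem_coe, mem_filter] at hF hF'
      have h' : insert e F = insert e F' := h
      rw [← erase_insert hF.2.1, h', erase_insert hF'.2.1]
  have h3 := (card_le_card h1).trans ((card_union_le _ _).trans
    (Nat.add_le_add_left (card_union_le _ _) _))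
  omega

end Pool.Agent.Work.MP_6229d2_co.Thr
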