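import Pool.Agent.Work.MP_6229d2_co.Thr.Short

set_option autoImplicit false

/-! The survival events and their probabilities. -/

namespace Pool.Agent.Work.MP_6229d2_co.Thr

open scoped Classical
open Finset

section prob
variable {α : Type} [Fintype α] [DecidableEq α] {M : ℕ}

/-- configurations: a set and a colouring -/
abbrev Om (α : Type) (M : ℕ) := Finset α × (α → Fin M)

/-- the set of configurations with the property `A` -/
noncomputable def ev (A : Om α M → Prop) : Finset (Om α M) := univ.filter A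

lemma mem_ev {A : Om α M → Prop} {ω : Om α M} : ω ∈ ev A ↔ A ω := by
  unfold ev
  rw [mem_filter]
  exact ⟨fun h => h.2, fun h => ⟨mem_univ _, h⟩⟩

/-- the uniform probability -/
noncomputable def P (A : Om α M → Prop) : ℝ := (ev A).card / Fintype.card (Om α M)

/-- the event `A` only depends on the coordinates in `T` -/
def Dep (T : Finset α) (A : Om α M → Prop) : Prop :=
  ∀ ω ω' : Om α M, ω.1 ∩ T = ω'.1 ∩ T → (∀ e ∈ T, ω.2 e = ω'.2 e) → (A ω ↔ A ω')

omit [Fintype α] in
lemma Dep.mono {T T' : Finset α} {A : Om α M → Prop} (h : Dep T A) (hT : T ⊆ T') : Dep T' A := by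
  intro ω ω' h1 h2
  refine h ω ω' ?_ fun e he => h2 e (hT he)
  rw [← inter_eq_right.mpr hT, ← inter_assoc, ← inter_assoc, h1]

omit [Fintype α] in
lemma Dep.not {T : Finset α} {A : Om α M → Prop} (h : Dep T A) : Dep T (fun ω => ¬ A ω) :=
  fun ω ω' h1 h2 => not_congr (h ω ω' h1 h2)

omit [Fintype α] in
lemma Dep.and {T : Finset α} {A B : Om α M → Prop} (h : Dep T A) (h' : Dep T B) :
    Dep T (fun ω => A ω ∧ B ω) :=
  fun ω ω' h1 h2 => and_congr (h ω ω' h1 h2) (h' ω ω' h1 h2)

/-- exchange of coordinates -/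
def mix (T : Finset α) (ω ω' : Om α M) : Om α M :=
  ((ω.1 ∩ T) ∪ (ω'.1 \ T), fun e => if e ∈ T then ω.2 e else ω'.2 e)

omit [Fintype α] in
lemma mix_mix (T : Finset α) (ω ω' : Om α M) : mix T (mix T ω ω') (mix T ω' ω) = ω := by
  unfold mix
  refine Prod.ext ?_ ?_
  · ext e
    simp only [mem_union, mem_inter, mem_sdiff]
    tauto
  · funext e
    simp only
    split_ifs <;> rfl

omit [Fintype α] in
lemma mix_iff {T : Finset α} {A : Om α M → Prop} (h : Dep T A) (ω ω' : Om α M) :
    A (mix T ω ω') ↔ A ω := by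
  refine h _ _ ?_ ?_
  · unfold mix
    ext e
    simp only [mem_union, mem_inter, mem_sdiff]
    tauto
  · intro e he
    unfold mix
    simp only [if_pos he]

omit [Fintype α] in
lemma mix_iff' {T T' : Finset α} {A : Om α M → Prop} (hT : Disjoint T T') (h : Dep T' A)
    (ω ω' : Om α M) : A (mix T ω' ω) ↔ A ω := by
  rw [disjoint_left] at hT
  refine h _ _ ?_ ?_
  · unfold mix
    ext e
    simp only [mem_union, mem_inter, mem_sdiff]
    constructor
    · rintro ⟨⟨_, h1⟩ | ⟨h1, _⟩, h2⟩
      · exact absurd h2 (hT h1)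
      · exact ⟨h1, h2⟩
    · rintro ⟨h1, h2⟩
      exact ⟨Or.inr ⟨h1, fun h3 => hT h3 h2⟩, h2⟩
  · intro e he
    unfold mix
    simp only
    rw [if_neg fun h3 => hT h3 he]

variable [NeZero M]

lemma card_Om_pos : (0 : ℝ) < Fintype.card (Om α M) := by
  have : 0 < Fintype.card (Om α M) := Fintype.card_pos
  exact_mod_cast this

/-- **independence** -/
theorem indep {T T' : Finset α} (hT : Disjoint T T') {A B : Om α M → Prop} (hA : Dep T A)
    (hB : Dep T' B) : P (fun ω => A ω ∧ B ω) = P A * P B := by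
  have h1 : ((ev fun ω => A ω ∧ B ω) ×ˢ (univ : Finset (Om α M))).card =
      ((ev A) ×ˢ (ev B)).card := by
    refine card_nbij' (fun z => (mix T z.1 z.2, mix T z.2 z.1))
      (fun z => (mix T z.1 z.2, mix T z.2 z.1)) ?_ ?_ ?_ ?_
    · rintro ⟨ω, ω'⟩ hz
      rw [mem_coe, mem_product, mem_ev] at hz
      rw [mem_coe, mem_product, mem_ev, mem_ev]
      exact ⟨(mix_iff hA ω ω').mpr hz.1.1, (mix_iff' hT hB ω ω').mpr hz.1.2⟩
    · rintro ⟨ω, ω'⟩ hz
      rw [mem_coe, mem_product, mem_ev, mem_ev] at hz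
      rw [mem_coe, mem_product, mem_ev]
      exact ⟨⟨(mix_iff hA ω ω').mpr hz.1, (mix_iff' hT hB ω' ω).mpr hz.2⟩, mem_univ _⟩
    · rintro ⟨ω, ω'⟩ _
      simp only [mix_mix]
    · rintro ⟨ω, ω'⟩ _
      simp only [mix_mix]
  rw [card_product, card_product, card_univ] at h1
  have h2 : ((ev fun ω => A ω ∧ B ω).card : ℝ) *
      Fintype.card (Om α M) = (ev A).card * (ev B).card := by exact_mod_cast h1
  have h3 := card_Om_pos (α := α) (M := M)
  unfold P
  field_simp
  linarith

lemma P_not (A : Om α M → Prop) : P (fun ω => ¬ A ω) = 1 - P A := by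
  have h1 : (ev A).card + (ev fun ω => ¬ A ω).card = Fintype.card (Om α M) := by
    rw [← card_union_of_disjoint, ← card_univ]
    · congr 1
      ext ω
      rw [mem_union, mem_ev, mem_ev]
      simp only [mem_univ, iff_true]
      exact em _
    · rw [disjoint_left]
      intro ω h h'
      rw [mem_ev] at h h'
      exact h' h
  have h2 : ((ev A).card : ℝ) + (ev fun ω => ¬ A ω).card = Fintype.card (Om α M) := by
    exact_mod_cast h1
  have h3 := card_Om_pos (α := α) (M := M)
  unfold P
  rw [eq_sub_iff_add_eq, ← add_div, add_comm, h2, div_self h3.ne']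

lemma P_true : P (fun _ : Om α M => True) = 1 := by
  have h3 := card_Om_pos (α := α) (M := M)
  have h1 : (ev fun _ : Om α M => True) = univ := by
    ext ω
    rw [mem_ev]
    simp
  unfold P
  rw [h1, card_univ, div_self h3.ne']

lemma P_congr {A B : Om α M → Prop} (h : ∀ ω, A ω ↔ B ω) : P A = P B := by
  have : A = B := funext fun ω => propext (h ω)
  rw [this]

/-- the probability that none of several independent events occurs -/
theorem P_none {ι : Type} (s : Finset ι) (T : ι → Finset α) (E : ι → Om α M → Prop)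
    (hE : ∀ i ∈ s, Dep (T i) (E i)) (hT : ∀ i ∈ s, ∀ j ∈ s, i ≠ j → Disjoint (T i) (T j)) :
    P (fun ω => ∀ i ∈ s, ¬ E i ω) = ∏ i ∈ s, (1 - P (E i)) ∧
      Dep (s.biUnion T) (fun ω => ∀ i ∈ s, ¬ E i ω) := by
  induction s using Finset.induction_on with
  | empty =>
    refine ⟨?_, ?_⟩
    · rw [prod_empty, ← P_true (α := α) (M := M)]
      exact P_congr fun ω => by simp
    · intro ω ω' _ _
      simp
  | insert i s hi ih =>
    obtain ⟨ih1, ih2⟩ := ih (fun j hj => hE j (mem_insert_of_mem hj))
      fun j hj k hk => hT j (mem_insert_of_mem hj) k (mem_insert_of_mem hk)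
    have hdisj : Disjoint (T i) (s.biUnion T) := by
      rw [disjoint_biUnion_right]
      intro j hj
      refine hT i (mem_insert_self i s) j (mem_insert_of_mem hj) ?_
      rintro rfl
      exact hi hj
    have hiff : ∀ ω, (∀ j ∈ insert i s, ¬ E j ω) ↔ (¬ E i ω ∧ ∀ j ∈ s, ¬ E j ω) := by
      intro ω
      rw [forall_mem_insert]
    refine ⟨?_, ?_⟩
    · rw [prod_insert hi, ← ih1, P_congr hiff,
        indep hdisj (hE i (mem_insert_self i s)).not ih2, P_not]
    · have h1 : Dep ((insert i s).biUnion T) fun ω => ¬ E i ω ∧ ∀ j ∈ s, ¬ E j ω := by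
        refine Dep.and ((hE i (mem_insert_self i s)).not.mono ?_) (ih2.mono ?_)
        · exact subset_biUnion_of_mem T (mem_insert_self i s)
        · exact biUnion_subset_biUnion_of_subset_left T (subset_insert i s)
      intro ω ω' g1 g2
      exact (hiff ω).trans ((h1 ω ω' g1 g2).trans (hiff ω').symm)

/-- the coordinate `f` is open -/
def Op (ω : Om α M) (f : α) : Prop := f ∈ ω.1 ∧ ω.2 f ≠ 0

omit [Fintype α] in
lemma dep_Op (f : α) : Dep {f} (fun ω : Om α M => Op ω f) := by
  intro ω ω' h1 h2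
  have e1 : f ∈ ω.1 ↔ f ∈ ω'.1 := by
    have := Finset.ext_iff.mp h1 f
    simpa using this
  have e2 := h2 f (mem_singleton_self f)
  change (f ∈ ω.1 ∧ ω.2 f ≠ 0) ↔ (f ∈ ω'.1 ∧ ω'.2 f ≠ 0)
  rw [e1, e2]

omit [Fintype α] in
lemma dep_col (f : α) : Dep {f} (fun ω : Om α M => ω.2 f = 0) := by
  intro ω ω' _ h2
  have e2 := h2 f (mem_singleton_self f)
  change (ω.2 f = 0) ↔ (ω'.2 f = 0)
  rw [e2]

lemma card_col (f : α) (B : Finset (Fin M)) :
    ((univ : Finset (α → Fin M)).filter fun c => c f ∈ B).card * M = B.card * M ^ Fintype.card α := by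
  have h1 : ((univ : Finset (α → Fin M)).filter fun c => c f ∈ B) =
      Fintype.piFinset fun i => if i = f then B else univ := by
    ext c
    rw [mem_filter, Fintype.mem_piFinset]
    constructor
    · rintro ⟨_, h⟩ i
      split_ifs with hi
      · rw [hi]; exact h
      · exact mem_univ _
    · intro h
      refine ⟨mem_univ _, ?_⟩
      have := h f
      rwa [if_pos rfl] at this
  rw [h1, Fintype.card_piFinset, ← mul_prod_erase univ _ (mem_univ f), if_pos rfl]
  have h2 : ∏ i ∈ (univ : Finset α).erase f, (if i = f then B else univ).card =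
      M ^ (Fintype.card α - 1) := by
    rw [prod_congr rfl (g := fun _ => M), prod_const, card_erase_of_mem (mem_univ f), card_univ]
    intro i hi
    rw [if_neg (ne_of_mem_erase hi), card_univ, Fintype.card_fin]
  rw [h2, mul_assoc, ← pow_succ, Nat.sub_add_cancel]
  exact Fintype.card_pos_iff.mpr ⟨f⟩

lemma P_Op (f : α) : P (fun ω : Om α M => Op ω f) = (M - 1) / (2 * M) := by
  have h1 : (ev fun ω : Om α M => Op ω f) =
      ((univ : Finset (Finset α)).filter fun F => f ∈ F ∧ True) ×ˢ
        ((univ : Finset (α → Fin M)).filter fun c => c f ∈ univ.erase (0 : Fin M)) := by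
    ext ⟨F, c⟩
    rw [mem_ev, mem_product, mem_filter, mem_filter]
    simp [Op]
  have h2 := half_count f (fun _ : Finset α => True) (fun _ => Iff.rfl)
  have e : ∀ inst : DecidablePred fun _ : Finset α => True,
      @Finset.filter _ (fun _ => True) inst univ = univ := by
    intro inst
    ext
    simp
  rw [e, card_univ, Fintype.card_finset] at h2
  have h2c : 2 * ((univ : Finset (Finset α)).filter fun F => f ∈ F ∧ True).card =
      2 ^ Fintype.card α := by
    convert h2
  clear h2
  have h2 := h2c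
  have h3 := card_col f (univ.erase (0 : Fin M))
  rw [card_erase_of_mem (mem_univ _), card_univ, Fintype.card_fin] at h3
  have hM : 1 ≤ M := Nat.one_le_iff_ne_zero.mpr (NeZero.ne M)
  unfold P
  rw [h1, card_product, Fintype.card_prod, Fintype.card_finset, Fintype.card_fun, Fintype.card_fin]
  obtain ⟨a, ha⟩ : ∃ a, a = ((univ : Finset (Finset α)).filter fun F => f ∈ F ∧ True).card := ⟨_, rfl⟩
  obtain ⟨b, hb⟩ : ∃ b, b = ((univ : Finset (α → Fin M)).filter
    fun c => c f ∈ univ.erase (0 : Fin M)).card := ⟨_, rfl⟩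
  rw [← ha] at h2 ⊢
  rw [← hb] at h3 ⊢
  have h2' : (2 : ℝ) * a = 2 ^ Fintype.card α := by exact_mod_cast h2
  have h3' : (b : ℝ) * M = (M - 1) * M ^ Fintype.card α := by
    have : ((b * M : ℕ) : ℝ) = (((M - 1) * M ^ Fintype.card α : ℕ) : ℝ) := by rw [h3]
    push_cast [Nat.cast_sub hM] at this
    exact this
  have hM0 : (0 : ℝ) < M := by exact_mod_cast hM
  push_cast
  rw [div_eq_div_iff (by positivity) (by positivity)]
  calc (a : ℝ) * b * (2 * M) = (2 * a) * (b * M) := by ring
    _ = 2 ^ Fintype.card α * ((M - 1) * M ^ Fintype.card α) := by rw [h2', h3']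
    _ = _ := by ring

lemma P_col (f : α) : P (fun ω : Om α M => ω.2 f = 0) = 1 / M := by
  have h1 : (ev fun ω : Om α M => ω.2 f = 0) =
      (univ : Finset (Finset α)) ×ˢ
        ((univ : Finset (α → Fin M)).filter fun c => c f ∈ ({0} : Finset (Fin M))) := by
    ext ⟨F, c⟩
    rw [mem_ev, mem_product, mem_filter]
    simp
  have h3 := card_col f ({0} : Finset (Fin M))
  rw [card_singleton, one_mul] at h3
  have hM : 1 ≤ M := Nat.one_le_iff_ne_zero.mpr (NeZero.ne M)
  unfold P
  rw [h1, card_product, Fintype.card_prod, Fintype.card_fun, Fintype.card_fin, card_univ]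
  obtain ⟨b, hb⟩ : ∃ b, b = ((univ : Finset (α → Fin M)).filter
    fun c => c f ∈ ({0} : Finset (Fin M))).card := ⟨_, rfl⟩
  rw [← hb] at h3 ⊢
  have h3' : (b : ℝ) * M = M ^ Fintype.card α := by exact_mod_cast h3
  have hM0 : (0 : ℝ) < M := by exact_mod_cast hM
  have hF : (0 : ℝ) < Fintype.card (Finset α) := by
    have : 0 < Fintype.card (Finset α) := Fintype.card_pos
    exact_mod_cast this
  push_cast
  rw [← h3']
  have hb0 : (b : ℝ) ≠ 0 := by
    intro h
    rw [h, zero_mul] at h3'
    have : (0 : ℝ) < (M : ℝ) ^ Fintype.card α := by positivity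
    linarith
  field_simp

end prob

/-! ### Paths in graphs without short cycles -/

section path
variable {V : Type} [Fintype V] {G : SimpleGraph V} {g : ℕ}

omit [Fintype V] in
lemma extend_path (hG : NoShort G g) {x v w b : V} (hxv : G.Adj x v) (hvw : G.Adj v w)
    (hwx : w ≠ x) (q : G.Walk w b) (hq : q.IsPath) (hv : v ∉ q.support) (hlen : q.length + 2 ≤ g) :
    x ∉ (SimpleGraph.Walk.cons hvw q).support := by
  rw [SimpleGraph.Walk.support_cons, List.mem_cons, not_or]
  refine ⟨hxv.ne, fun hx => ?_⟩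
  have hr : (q.takeUntil x hx).IsPath := hq.takeUntil hx
  have hv' : v ∉ (q.takeUntil x hx).support := fun h =>
    hv (q.support_takeUntil_subset hx h)
  have h1 : (SimpleGraph.Walk.cons hxv (SimpleGraph.Walk.cons hvw (q.takeUntil x hx))).IsCycle := by
    rw [SimpleGraph.Walk.cons_isCycle_iff]
    refine ⟨hr.cons hv', ?_⟩
    rw [SimpleGraph.Walk.edges_cons, List.mem_cons, not_or]
    refine ⟨fun h => ?_, fun h => hv' (SimpleGraph.Walk.snd_mem_support_of_mem_edges _ h)⟩
    rw [Sym2.eq_iff] at h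
    rcases h with ⟨h, _⟩ | ⟨h, _⟩
    · exact hxv.ne h
    · exact hwx h.symm
  have h2 := hG _ _ h1
  rw [SimpleGraph.Walk.length_cons, SimpleGraph.Walk.length_cons] at h2
  have h3 := q.length_takeUntil_le hx
  omega

omit [Fintype V] in
lemma uniq (hG : NoShort G g) {a b : V} (p q : G.Walk a b) (hp : p.IsPath) (hq : q.IsPath)
    (hlen : p.length + q.length ≤ g) : p.support = q.support := by
  obtain ⟨H, hH⟩ : ∃ H : SimpleGraph V, H = SimpleGraph.fromEdgeSet {e | e ∈ p.edges ∨ e ∈ q.edges} :=
    ⟨_, rfl⟩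
  have hsub : ∀ e, (e ∈ p.edges ∨ e ∈ q.edges) → e ∈ G.edgeSet := by
    rintro e (h | h)
    · exact p.edges_subset_edgeSet h
    · exact q.edges_subset_edgeSet h
  have hedge : ∀ e, e ∈ H.edgeSet ↔ (e ∈ p.edges ∨ e ∈ q.edges) := by
    intro e
    rw [hH, SimpleGraph.edgeSet_fromEdgeSet]
    constructor
    · intro h; exact h.1
    · intro h
      exact ⟨h, fun hd => G.not_isDiag_of_mem_edgeSet (hsub e h) hd⟩
  have hac : H.IsAcyclic := by
    intro v c hc
    have h1 : ∀ e ∈ c.edges, e ∈ G.edgeSet := fun e he =>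
      hsub e ((hedge e).mp (c.edges_subset_edgeSet he))
    have h2 := hG v (c.transfer G h1) (hc.transfer h1)
    rw [SimpleGraph.Walk.length_transfer] at h2
    have h3 : c.edges.toFinset ⊆ p.edges.toFinset ∪ q.edges.toFinset := by
      intro e he
      rw [List.mem_toFinset] at he
      rw [mem_union, List.mem_toFinset, List.mem_toFinset]
      exact (hedge e).mp (c.edges_subset_edgeSet he)
    have h4 := (card_le_card h3).trans (card_union_le _ _)
    rw [List.toFinset_card_of_nodup hc.isTrail.edges_nodup, SimpleGraph.Walk.length_edges] at h4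
    have h5 := List.toFinset_card_le p.edges
    have h6 := List.toFinset_card_le q.edges
    rw [SimpleGraph.Walk.length_edges] at h5 h6
    omega
  have hpH : ∀ e ∈ p.edges, e ∈ H.edgeSet := fun e he => (hedge e).mpr (Or.inl he)
  have hqH : ∀ e ∈ q.edges, e ∈ H.edgeSet := fun e he => (hedge e).mpr (Or.inr he)
  have h1 := hac.path_unique ⟨p.transfer H hpH, hp.transfer hpH⟩ ⟨q.transfer H hqH, hq.transfer hqH⟩
  have h2 := congrArg (fun z : H.Path a b => (z : H.Walk a b).support) h1
  simp only [SimpleGraph.Walk.support_transfer] at h2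
  exact h2

variable {M : ℕ} [NeZero M] (C : CS G)

/-- the survival event -/
def Surv (ω : Om (Sym2 V) M) : ℕ → V → V → Prop
  | 0, _, _ => True
  | j + 1, x, v => ∃ w ∈ C.Ch x v, Op ω s(v, w) ∧ Surv ω j v w

/-- its support -/
noncomputable def Tt : ℕ → V → V → Finset (Sym2 V)
  | 0, _, _ => ∅
  | j + 1, x, v => (C.Ch x v).biUnion fun w => insert s(v, w) (Tt j v w)

lemma dep_Surv : ∀ (j : ℕ) (x v : V),
    Dep (Tt C j x v) (fun ω : Om (Sym2 V) M => Surv C ω j x v) := by
  intro j
  induction j with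
  | zero => intro x v ω ω' _ _; exact Iff.rfl
  | succ j ih =>
    intro x v ω ω' h1 h2
    have key : ∀ w ∈ C.Ch x v, (Op ω s(v, w) ∧ Surv C ω j v w) ↔
        (Op ω' s(v, w) ∧ Surv C ω' j v w) := by
      intro w hw
      have hsub : insert s(v, w) (Tt C j v w) ⊆ Tt C (j + 1) x v := by
        rw [Tt]
        exact subset_biUnion_of_mem (fun w => insert s(v, w) (Tt C j v w)) hw
      have h3 : Dep (Tt C (j + 1) x v) (fun ω : Om (Sym2 V) M => Op ω s(v, w) ∧ Surv C ω j v w) :=
        Dep.and ((dep_Op _).mono ((singleton_subset_iff.mpr (mem_insert_self _ _)).trans hsub))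
          ((ih v w).mono ((subset_insert _ _).trans hsub))
      exact h3 ω ω' h1 h2
    constructor
    · rintro ⟨w, hw, h⟩; exact ⟨w, hw, (key w hw).mp h⟩
    · rintro ⟨w, hw, h⟩; exact ⟨w, hw, (key w hw).mpr h⟩

lemma Tt_path (hG : NoShort G g) : ∀ (j : ℕ) (x v : V) (f : Sym2 V), j + 2 ≤ g → G.Adj x v →
    f ∈ Tt C j x v → ∃ (b : V) (q : G.Walk v b), x ∉ q.support ∧ q.IsPath ∧ f ∈ q.edges ∧
      q.length ≤ j := by
  intro j
  induction j with
  | zero =>
    intro x v f _ _ hf
    rw [Tt] at hf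
    simp at hf
  | succ j ih =>
    intro x v f hj hxv hf
    rw [Tt, mem_biUnion] at hf
    obtain ⟨w, hw, hf⟩ := hf
    have hvw := C.adj hxv hw
    have hwx := C.ne hxv hw
    rw [mem_insert] at hf
    rcases hf with rfl | hf
    · refine ⟨w, SimpleGraph.Walk.cons hvw SimpleGraph.Walk.nil, ?_, ?_, ?_, ?_⟩
      · apply extend_path hG hxv hvw hwx
        · exact SimpleGraph.Walk.IsPath.nil
        · simp [hvw.ne]
        · simp only [SimpleGraph.Walk.length_nil]; omega
      · exact SimpleGraph.Walk.IsPath.nil.cons (by simp [hvw.ne])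
      · simp
      · simp
    · obtain ⟨b, q, hvq, hq, hfq, hlen⟩ := ih v w f (by omega) hvw hf
      refine ⟨b, SimpleGraph.Walk.cons hvw q, ?_, hq.cons hvq, ?_, ?_⟩
      · exact extend_path hG hxv hvw hwx q hq hvq (by omega)
      · rw [SimpleGraph.Walk.edges_cons]
        exact List.mem_cons_of_mem _ hfq
      · rw [SimpleGraph.Walk.length_cons]
        omega

lemma Surv_path (hG : NoShort G g) {ω : Om (Sym2 V) M} : ∀ (j : ℕ) (x v : V), j + 2 ≤ g →
    G.Adj x v → Surv C ω j x v → ∃ (b : V) (q : G.Walk v b), x ∉ q.support ∧ q.IsPath ∧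
      q.length = j ∧ ∀ e ∈ q.edges, Op ω e := by
  intro j
  induction j with
  | zero =>
    intro x v _ hxv _
    exact ⟨v, SimpleGraph.Walk.nil, by simp [hxv.ne], SimpleGraph.Walk.IsPath.nil, rfl, by simp⟩
  | succ j ih =>
    intro x v hj hxv hS
    obtain ⟨w, hw, hop, hS⟩ := hS
    have hvw := C.adj hxv hw
    have hwx := C.ne hxv hw
    obtain ⟨b, q, hvq, hq, hlen, hqe⟩ := ih v w (by omega) hvw hS
    refine ⟨b, SimpleGraph.Walk.cons hvw q, ?_, hq.cons hvq, ?_, ?_⟩
    · exact extend_path hG hxv hvw hwx q hq hvq (by omega)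
    · rw [SimpleGraph.Walk.length_cons, hlen]
    · intro e he
      rw [SimpleGraph.Walk.edges_cons, List.mem_cons] at he
      rcases he with rfl | he
      · exact hop
      · exact hqe e he

lemma notMem_Tt (hG : NoShort G g) {j : ℕ} (hj : j + 2 ≤ g) {v w : V} (hvw : G.Adj v w) :
    s(v, w) ∉ Tt C j v w := by
  intro h
  obtain ⟨b, q, hvq, _, hfq, _⟩ := Tt_path C hG j v w _ hj hvw h
  exact hvq (SimpleGraph.Walk.fst_mem_support_of_mem_edges q hfq)

lemma ch_disj (hG : NoShort G g) {j : ℕ} (hj : 2 * j + 2 ≤ g) {v w w' : V}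
    (hvw : G.Adj v w) (hvw' : G.Adj v w') (hne : w ≠ w') :
    Disjoint (insert s(v, w) (Tt C j v w)) (insert s(v, w') (Tt C j v w')) := by
  have key : ∀ {w w' : V}, G.Adj v w → G.Adj v w' → w ≠ w' → s(v, w) ∉ Tt C j v w' := by
    intro w w' hvw hvw' _ h
    obtain ⟨b, q, hvq, _, hfq, _⟩ := Tt_path C hG j v w' _ (by omega) hvw' h
    exact hvq (SimpleGraph.Walk.fst_mem_support_of_mem_edges q hfq)
  rw [disjoint_left]
  intro f hf hf'
  rw [mem_insert] at hf hf'
  rcases hf with rfl | hf
  · rcases hf' with h | hf'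
    · rw [Sym2.eq_iff] at h
      rcases h with ⟨_, h⟩ | ⟨h, _⟩
      · exact hne h
      · exact hvw'.ne h
    · exact key hvw hvw' hne hf'
  · rcases hf' with rfl | hf'
    · exact key hvw' hvw hne.symm hf
    · obtain ⟨b, q, hvq, hq, hfq, hlen⟩ := Tt_path C hG j v w f (by omega) hvw hf
      obtain ⟨b', q', hvq', hq', hfq', hlen'⟩ := Tt_path C hG j v w' f (by omega) hvw' hf'
      induction f using Sym2.ind with
      | _ a a' =>
        have ha : a ∈ q.support := SimpleGraph.Walk.fst_mem_support_of_mem_edges q hfq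
        have ha' : a ∈ q'.support := SimpleGraph.Walk.fst_mem_support_of_mem_edges q' hfq'
        have h1 := q.length_takeUntil_le ha
        have h2 := q'.length_takeUntil_le ha'
        have h3 := uniq hG (SimpleGraph.Walk.cons hvw (q.takeUntil a ha))
          (SimpleGraph.Walk.cons hvw' (q'.takeUntil a ha'))
          ((hq.takeUntil ha).cons fun h => hvq (q.support_takeUntil_subset ha h))
          ((hq'.takeUntil ha').cons fun h => hvq' (q'.support_takeUntil_subset ha' h)) (by
            rw [SimpleGraph.Walk.length_cons, SimpleGraph.Walk.length_cons]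
            omega)
        rw [SimpleGraph.Walk.support_cons, SimpleGraph.Walk.support_cons,
          (q.takeUntil a ha).support_eq_cons, (q'.takeUntil a ha').support_eq_cons] at h3
        injection h3 with _ h4
        injection h4 with h5 _
        exact hne h5

lemma root_disj (hG : NoShort G g) {j : ℕ} (hj : 2 * j + 2 ≤ g) {x v : V} (hxv : G.Adj x v) :
    Disjoint (Tt C j x v) (Tt C j v x) := by
  rw [disjoint_left]
  intro f hf hf'
  obtain ⟨b, q, hxq, hq, hfq, hlen⟩ := Tt_path C hG j x v f (by omega) hxv hf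
  obtain ⟨b', q', hvq', hq', hfq', hlen'⟩ := Tt_path C hG j v x f (by omega) hxv.symm hf'
  induction f using Sym2.ind with
  | _ a a' =>
    have ha : a ∈ q.support := SimpleGraph.Walk.fst_mem_support_of_mem_edges q hfq
    have ha' : a ∈ q'.support := SimpleGraph.Walk.fst_mem_support_of_mem_edges q' hfq'
    have h1 := q.length_takeUntil_le ha
    have h2 := q'.length_takeUntil_le ha'
    have h3 := uniq hG (SimpleGraph.Walk.cons hxv (q.takeUntil a ha)) (q'.takeUntil a ha')
      ((hq.takeUntil ha).cons fun h => hxq (q.support_takeUntil_subset ha h))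
      (hq'.takeUntil ha') (by
        rw [SimpleGraph.Walk.length_cons]
        omega)
    apply hvq'
    apply q'.support_takeUntil_subset ha'
    rw [← h3, SimpleGraph.Walk.support_cons]
    exact List.mem_cons_of_mem _ (SimpleGraph.Walk.start_mem_support _)

/-- **the probability of survival** -/
theorem P_Surv (hG : NoShort G g) : ∀ (j : ℕ) (x v : V), 2 * j + 2 ≤ g → G.Adj x v →
    P (fun ω : Om (Sym2 V) M => Surv C ω j x v) = th C ((M - 1) / (2 * M)) j x v := by
  intro j
  induction j with
  | zero =>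
    intro x v _ _
    rw [th, ← P_true (α := Sym2 V) (M := M)]
    exact P_congr fun ω => Iff.rfl
  | succ j ih =>
    intro x v hj hxv
    have h1 := (P_none (M := M) (C.Ch x v) (fun w => insert s(v, w) (Tt C j v w))
      (fun w ω => Op ω s(v, w) ∧ Surv C ω j v w) (fun w _ =>
        Dep.and ((dep_Op _).mono (singleton_subset_iff.mpr (mem_insert_self _ _)))
          ((dep_Surv C j v w).mono (subset_insert _ _)))
      (fun w hw w' hw' hne => ch_disj C hG (by omega) (C.adj hxv hw) (C.adj hxv hw') hne)).1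
    have h2 : P (fun ω : Om (Sym2 V) M => Surv C ω (j + 1) x v) =
        1 - P (fun ω : Om (Sym2 V) M => ∀ w ∈ C.Ch x v, ¬ (Op ω s(v, w) ∧ Surv C ω j v w)) := by
      rw [← P_not]
      refine P_congr fun ω => ?_
      rw [Surv]
      push Not
      exact Iff.rfl
    rw [h2, h1, th]
    congr 1
    refine prod_congr rfl fun w hw => ?_
    have hvw := C.adj hxv hw
    rw [indep (disjoint_singleton_left.mpr (notMem_Tt C hG (by omega) hvw)) (dep_Op _)
      (dep_Surv C j v w), P_Op, ih v w (by omega) hvw]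

end path

end Pool.Agent.Work.MP_6229d2_co.Thr
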