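import Pool.Agent.Work.MP_6229d2_co.Thr.Forest
import Pool.Agent.Work.MP_6229d2_co.MaxMatching

set_option autoImplicit false

/-! The mean broken-cycle-free size of graphs whose average degree exceeds three. -/

namespace Pool.Agent.Work.MP_6229d2_co.Thr

open scoped Classical
open Finset

section
variable {V : Type} [Fintype V]

/-- the number of forbidden additions -/
lemma sum_Dd (G : SimpleGraph V) (ord : LinearOrder (Sym2 V)) :
    ∑ e ∈ edg G, ((Dd (brokenCycleFree G ord) e).card : ℝ) =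
      (((edg G).card : ℝ) - 2 * ((eps G ord : ℚ) : ℝ)) * (brokenCycleFree G ord).card := by
  have h1 := eps_sum G ord
  have h1' : ((eps G ord : ℚ) : ℝ) * (brokenCycleFree G ord).card =
      ∑ e ∈ edg G, (((brokenCycleFree G ord).filter fun F => e ∈ F).card : ℝ) := by
    exact_mod_cast h1
  have h2 : ∀ e, 2 * ((((brokenCycleFree G ord).filter fun F => e ∈ F).card : ℝ)) +
      (Dd (brokenCycleFree G ord) e).card = (brokenCycleFree G ord).card := by
    intro e
    have h3 := edge_count G ord e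
    have h4 : (Dd (brokenCycleFree G ord) e).card = ((brokenCycleFree G ord).filter
        fun F => e ∉ F ∧ insert e F ∉ brokenCycleFree G ord).card := by
      unfold Dd
      congr
    rw [← h4] at h3
    exact_mod_cast h3
  have h3 : ∑ e ∈ edg G, (2 * ((((brokenCycleFree G ord).filter fun F => e ∈ F).card : ℝ)) +
      (Dd (brokenCycleFree G ord) e).card) = (edg G).card * (brokenCycleFree G ord).card := by
    rw [sum_congr rfl fun e _ => h2 e, sum_const, nsmul_eq_mul]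
  rw [sum_add_distrib, ← mul_sum, ← h1'] at h3
  linarith

variable {G : SimpleGraph V} {M : ℕ} [NeZero M] (C : CS G)

/-- both ends of the edge `xv` lie in large components -/
def Both (r : ℕ) (x v : V) (ω : Om (Sym2 V) M) : Prop := Surv C ω r x v ∧ Surv C ω r v x

lemma dep_Both (r : ℕ) (x v : V) :
    Dep (Tt C r x v ∪ Tt C r v x) (fun ω : Om (Sym2 V) M => Both C r x v ω) :=
  Dep.and ((dep_Surv C r x v).mono subset_union_left) ((dep_Surv C r v x).mono subset_union_right)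

lemma P_Both {g r : ℕ} (hG : NoShort G g) (hr : 2 * r + 2 ≤ g) {x v : V} (hxv : G.Adj x v) :
    P (fun ω : Om (Sym2 V) M => ω.2 s(x, v) = 0 ∧ Both C r x v ω) =
      1 / M * (th C ((M - 1) / (2 * M)) r x v * th C ((M - 1) / (2 * M)) r v x) := by
  have hdisj : Disjoint ({s(x, v)} : Finset (Sym2 V)) (Tt C r x v ∪ Tt C r v x) := by
    rw [disjoint_singleton_left, mem_union, not_or]
    refine ⟨notMem_Tt C hG (by omega) hxv, ?_⟩
    rw [Sym2.eq_swap]
    exact notMem_Tt C hG (by omega) hxv.symm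
  rw [indep hdisj (dep_col _) (dep_Both C r x v), P_col]
  congr 1
  have h1 := indep (M := M) (root_disj C hG hr hxv) (dep_Surv C r x v) (dep_Surv C r v x)
  rw [P_Surv C hG r x v hr hxv, P_Surv C hG r v x hr hxv.symm] at h1
  exact h1

/-- the lower bound for one dart -/
lemma dart_lower {g r : ℕ} (hG : NoShort G g) (hr : 2 * r + 2 ≤ g) (hm9 : ∀ v, C.m v ≤ 9)
    {A : Finset (Finset (Sym2 V))} (hA : IsLowerSet (A : Set (Finset (Sym2 V)))) {x v : V}
    (hxv : G.Adj x v) :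
    ((M : ℝ) ^ Fintype.card (Sym2 V) / M) * ((A.card : ℝ) *
      (th C ((M - 1) / (2 * M)) r x v * th C ((M - 1) / (2 * M)) r v x) -
      2 ^ (2 * 18 ^ r) * (∑ e ∈ Tt C r x v, ((Dd A e).card : ℝ) +
        ∑ e ∈ Tt C r v x, ((Dd A e).card : ℝ)) - (Dd A s(x, v)).card) ≤
      2 * ∑ c : Sym2 V → Fin M, ∑ F ∈ A,
        if (c s(x, v) = 0 ∧ s(x, v) ∈ F ∧ Both C r x v (F, c)) then (1 : ℝ) else 0 := by
  obtain ⟨S, hS⟩ : ∃ S, S = Tt C r x v ∪ Tt C r v x := ⟨_, rfl⟩
  obtain ⟨Z, hZ⟩ : ∃ Z, Z = (univ : Finset (Sym2 V → Fin M)).filter fun c => c s(x, v) = 0 :=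
    ⟨_, rfl⟩
  have hdep := dep_Both C (M := M) r x v
  rw [← hS] at hdep
  have heS : s(x, v) ∉ S := by
    rw [hS, mem_union, not_or]
    refine ⟨notMem_Tt C hG (by omega) hxv, ?_⟩
    rw [Sym2.eq_swap]
    exact notMem_Tt C hG (by omega) hxv.symm
  have hScard : S.card ≤ 2 * 18 ^ r := by
    rw [hS]
    refine (card_union_le _ _).trans ?_
    have h1 := card_Tt C hm9 r x v hxv
    have h2 := card_Tt C hm9 r v x hxv.symm
    omega
  have hSsum : ∑ e ∈ S, ((Dd A e).card : ℝ) ≤ ∑ e ∈ Tt C r x v, ((Dd A e).card : ℝ) +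
        ∑ e ∈ Tt C r v x, ((Dd A e).card : ℝ) := by
    have := sum_union_inter (s₁ := Tt C r x v) (s₂ := Tt C r v x)
      (f := fun e => ((Dd A e).card : ℝ))
    have h2 : 0 ≤ ∑ e ∈ Tt C r x v ∩ Tt C r v x, ((Dd A e).card : ℝ) :=
      sum_nonneg fun e _ => Nat.cast_nonneg _
    rw [hS]
    linarith
  obtain ⟨E, hE⟩ : ∃ E : ℝ, E = 2 ^ (2 * 18 ^ r) * (∑ e ∈ Tt C r x v, ((Dd A e).card : ℝ) +
        ∑ e ∈ Tt C r v x, ((Dd A e).card : ℝ)) := ⟨_, rfl⟩
  have hE' : 2 ^ S.card * ∑ e ∈ S, ((Dd A e).card : ℝ) ≤ E := by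
    rw [hE]
    exact mul_le_mul (pow_le_pow_right₀ (by norm_num) hScard) hSsum
      (sum_nonneg fun e _ => Nat.cast_nonneg _) (by positivity)
  -- one colouring
  have hone : ∀ c ∈ Z, (A.card : ℝ) * (((univ : Finset (Finset (Sym2 V))).filter
      fun F => Both C r x v (F, c)).card / 2 ^ Fintype.card (Sym2 V)) - E -
      (Dd A s(x, v)).card ≤ 2 * ∑ F ∈ A,
        if (c s(x, v) = 0 ∧ s(x, v) ∈ F ∧ Both C r x v (F, c)) then (1 : ℝ) else 0 := by
    intro c hc
    rw [hZ, mem_filter] at hc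
    have h1 := local_ge hA S (fun F => Both C r x v (F, c)) (by
      intro F
      refine hdep (F, c) (F ∩ S, c) ?_ (fun _ _ => rfl)
      simp only [inter_assoc, inter_self])
    have h2 := with_edge (A := A) s(x, v) (fun F => Both C r x v (F, c)) (by
      intro F
      refine hdep (insert s(x, v) F, c) (F, c) ?_ (fun _ _ => rfl)
      simp only [insert_inter_of_notMem heS])
    have h3 : ∑ F ∈ A, (if (c s(x, v) = 0 ∧ s(x, v) ∈ F ∧ Both C r x v (F, c)) then (1 : ℝ)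
        else 0) = ((A.filter fun F => s(x, v) ∈ F ∧ Both C r x v (F, c)).card : ℝ) := by
      rw [← sum_filter, sum_const, nsmul_eq_mul, mul_one]
      congr 2
      ext F
      simp only [mem_filter, hc.2, true_and]
    have h2' : ((A.filter fun F => Both C r x v (F, c)).card : ℝ) ≤
        2 * ((A.filter fun F => s(x, v) ∈ F ∧ Both C r x v (F, c)).card : ℝ) +
          (Dd A s(x, v)).card := by exact_mod_cast h2
    rw [h3]
    linarith
  have hsumZ : ∑ c ∈ Z, ((A.card : ℝ) * (((univ : Finset (Finset (Sym2 V))).filter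
      fun F => Both C r x v (F, c)).card / 2 ^ Fintype.card (Sym2 V)) - E -
      (Dd A s(x, v)).card) ≤ 2 * ∑ c : Sym2 V → Fin M, ∑ F ∈ A,
        if (c s(x, v) = 0 ∧ s(x, v) ∈ F ∧ Both C r x v (F, c)) then (1 : ℝ) else 0 := by
    refine (sum_le_sum hone).trans ?_
    rw [← mul_sum]
    refine mul_le_mul_of_nonneg_left ?_ (by norm_num)
    refine sum_le_sum_of_subset_of_nonneg (subset_univ Z) fun c _ _ => ?_
    exact sum_nonneg fun F _ => by split_ifs <;> norm_num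
  refine le_trans (le_of_eq ?_) hsumZ
  -- the value of the sum
  have hM : 1 ≤ M := Nat.one_le_iff_ne_zero.mpr (NeZero.ne M)
  have hM0 : (0 : ℝ) < M := by exact_mod_cast hM
  have hZcard : (Z.card : ℝ) = (M : ℝ) ^ Fintype.card (Sym2 V) / M := by
    have h3 := card_col s(x, v) ({0} : Finset (Fin M))
    rw [card_singleton, one_mul] at h3
    have h4 : Z = (univ : Finset (Sym2 V → Fin M)).filter
        fun c => c s(x, v) ∈ ({0} : Finset (Fin M)) := by
      rw [hZ]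
      ext c
      simp
    rw [← h4] at h3
    rw [eq_div_iff hM0.ne']
    exact_mod_cast h3
  have hev : ∑ c ∈ Z, (((univ : Finset (Finset (Sym2 V))).filter
      fun F => Both C r x v (F, c)).card : ℝ) =
      (2 ^ Fintype.card (Sym2 V) * (M : ℝ) ^ Fintype.card (Sym2 V)) * (1 / M *
        (th C ((M - 1) / (2 * M)) r x v * th C ((M - 1) / (2 * M)) r v x)) := by
    rw [← P_Both C hG hr hxv]
    unfold P
    have h1 : (ev fun ω : Om (Sym2 V) M => ω.2 s(x, v) = 0 ∧ Both C r x v ω).card =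
        ∑ c ∈ Z, ((univ : Finset (Finset (Sym2 V))).filter
          fun F => Both C r x v (F, c)).card := by
      rw [card_eq_sum_card_fiberwise (f := fun ω : Om (Sym2 V) M => ω.2) (t := Z)]
      · refine sum_congr rfl fun c hc => ?_
        rw [hZ, mem_filter] at hc
        refine card_nbij' (fun ω => ω.1) (fun F => (F, c)) ?_ ?_ ?_ ?_
        · intro ω hω
          rw [mem_coe, mem_filter, mem_ev] at hω
          rw [mem_coe, mem_filter]
          refine ⟨mem_univ _, ?_⟩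
          rw [← hω.2]
          exact hω.1.2
        · intro F hF
          rw [mem_coe, mem_filter] at hF
          rw [mem_coe, mem_filter, mem_ev]
          exact ⟨⟨hc.2, hF.2⟩, rfl⟩
        · intro ω hω
          rw [mem_coe, mem_filter] at hω
          exact Prod.ext rfl hω.2.symm
        · intro F _
          rfl
      · intro ω hω
        rw [mem_coe, mem_ev] at hω
        rw [mem_coe, hZ, mem_filter]
        exact ⟨mem_univ _, hω.1⟩
    rw [h1, Fintype.card_prod, Fintype.card_finset, Fintype.card_fun, Fintype.card_fin]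
    push_cast
    field_simp
  rw [sum_sub_distrib, sum_sub_distrib, sum_const, sum_const, nsmul_eq_mul, nsmul_eq_mul,
    ← mul_sum, ← sum_div, hev, hZcard, ← hE]
  field_simp

/-- the upper bound for one configuration -/
lemma config_upper {g r : ℕ} (hG : NoShort G g) (hr : 2 * r + 2 ≤ g) {F : Finset (Sym2 V)}
    (hac : (SimpleGraph.fromEdgeSet (F : Set (Sym2 V))).IsAcyclic) (hd : ∀ e ∈ F, ¬ e.IsDiag)
    (c : Sym2 V → Fin M) :
    (∑ v, ∑ x ∈ nbr G v, if (c s(x, v) = 0 ∧ s(x, v) ∈ F ∧ Both C r x v (F, c)) then (1 : ℝ)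
      else 0) * (r + 1) ≤ 2 * Fintype.card V := by
  obtain ⟨B, hB⟩ : ∃ B, B = (edg G).filter fun e => c e = 0 ∧ e ∈ F ∧
      ∃ x v, G.Adj x v ∧ e = s(x, v) ∧ Both C r x v (F, c) := ⟨_, rfl⟩
  have h1 : ∑ v, ∑ x ∈ nbr G v, (if (c s(x, v) = 0 ∧ s(x, v) ∈ F ∧ Both C r x v (F, c)) then
      (1 : ℝ) else 0) ≤ ∑ v, ∑ x ∈ nbr G v, if s(v, x) ∈ B then (1 : ℝ) else 0 := by
    refine sum_le_sum fun v _ => sum_le_sum fun x hx => ?_
    have hxv := (mem_nbr.mp hx).symm
    split_ifs with h h'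
    · exact le_rfl
    · exfalso
      apply h'
      rw [hB, mem_filter, mem_edg, Sym2.eq_swap, SimpleGraph.mem_edgeSet]
      exact ⟨hxv, h.1, h.2.1, x, v, hxv, rfl, h.2.2⟩
    · norm_num
    · exact le_rfl
  have h2 := dart_edge G (fun e => if e ∈ B then (1 : ℝ) else 0)
    (fun e => by split_ifs <;> norm_num)
  have h3 : ∑ e ∈ edg G, (if e ∈ B then (1 : ℝ) else 0) = B.card := by
    rw [← sum_filter, sum_const, nsmul_eq_mul, mul_one]
    congr 2
    ext e
    rw [mem_filter]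
    refine ⟨fun h => h.2, fun h => ⟨?_, h⟩⟩
    rw [hB, mem_filter] at h
    exact h.1
  rw [h3] at h2
  obtain ⟨F', hF'⟩ : ∃ F', F' = F.filter fun e => c e ≠ 0 := ⟨_, rfl⟩
  have hsub : F' ∪ B ⊆ F := by
    intro e he
    rw [mem_union, hF', mem_filter, hB, mem_filter] at he
    rcases he with he | he
    · exact he.1
    · exact he.2.2.1
  have key : ∀ x v : V, G.Adj x v → Surv C (F, c) r x v → r + 1 ≤ (univ.filter fun u =>
      (SimpleGraph.fromEdgeSet (F' : Set (Sym2 V))).Reachable v u).card := by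
    intro x v hxv hS
    obtain ⟨b, q, _, hq, hlen, hqe⟩ := Surv_path C hG r x v (by omega) hxv hS
    have h4 : q.support.toFinset ⊆ univ.filter fun u =>
        (SimpleGraph.fromEdgeSet (F' : Set (Sym2 V))).Reachable v u := by
      intro u hu
      rw [List.mem_toFinset] at hu
      rw [mem_filter]
      refine ⟨mem_univ _, ?_⟩
      have hqF : ∀ e ∈ (q.takeUntil u hu).edges,
          e ∈ (SimpleGraph.fromEdgeSet (F' : Set (Sym2 V))).edgeSet := by
        intro e he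
        have he' := q.edges_takeUntil_subset hu he
        rw [SimpleGraph.edgeSet_fromEdgeSet]
        refine ⟨?_, fun h => G.not_isDiag_of_mem_edgeSet (q.edges_subset_edgeSet he') h⟩
        rw [mem_coe, hF', mem_filter]
        exact hqe e he'
      exact ⟨(q.takeUntil u hu).transfer _ hqF⟩
    refine le_trans ?_ (card_le_card h4)
    rw [List.toFinset_card_of_nodup hq.support_nodup, SimpleGraph.Walk.length_support, hlen]
  have h5 := forest_bound F' B (by
      rw [disjoint_left]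
      intro e he he'
      rw [hF', mem_filter] at he
      rw [hB, mem_filter] at he'
      exact he.2 he'.2.1) (by
      refine SimpleGraph.IsAcyclic.anti ?_ hac
      intro a b h
      rw [SimpleGraph.fromEdgeSet_adj] at h ⊢
      exact ⟨mem_coe.mpr (hsub (mem_coe.mp h.1)), h.2⟩) (fun e he => hd e (hsub he)) (r + 1) (by
      intro e he u hu
      rw [hB, mem_filter] at he
      obtain ⟨_, _, _, x, v, hxv, rfl, hS1, hS2⟩ := he
      rw [Sym2.mem_iff] at hu
      rcases hu with rfl | rfl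
      · exact key v u hxv.symm hS2
      · exact key x u hxv hS1)
  have h6 : (B.card : ℝ) * (r + 1) ≤ Fintype.card V := by exact_mod_cast h5
  have h7 : (0 : ℝ) ≤ r + 1 := by positivity
  calc _ ≤ (2 * (B.card : ℝ)) * (r + 1) := mul_le_mul_of_nonneg_right (h1.trans h2) h7
    _ ≤ _ := by linarith

end

/-- **graphs of average degree larger than three** -/
theorem threshold (δ : ℝ) (hδ : 0 < δ) : ∃ c : ℝ, 0 < c ∧ ∀ (V : Type) [Fintype V]
    (G : SimpleGraph V) (ord : LinearOrder (Sym2 V)),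
    (3 / 2 + δ) * Fintype.card V ≤ (edg G).card →
      ((eps G ord : ℚ) : ℝ) ≤ (edg G).card / 2 - c * Fintype.card V := by
  obtain ⟨d, hd⟩ : ∃ d, d = min δ (1 / 2) := ⟨_, rfl⟩
  have hd0 : 0 < d := by rw [hd]; positivity
  have hd1 : d ≤ 1 / 2 := hd ▸ min_le_right _ _
  have hdδ : d ≤ δ := hd ▸ min_le_left _ _
  -- the number of colours
  obtain ⟨M', hM'⟩ := exists_nat_ge (16 / d)
  obtain ⟨M, hM⟩ : ∃ M, M = M' + 1 := ⟨_, rfl⟩
  have hM'0 : 0 < (M' : ℝ) := lt_of_lt_of_le (by positivity) hM'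
  have hM'1 : 1 / (M' : ℝ) ≤ d / 16 := by
    rw [div_le_div_iff₀ hM'0 (by norm_num)]
    rw [div_le_iff₀ hd0] at hM'
    linarith
  have hMR : (M : ℝ) = M' + 1 := by rw [hM]; push_cast; ring
  have hM0 : (0 : ℝ) < M := by rw [hMR]; positivity
  have : NeZero M := ⟨by rw [hM]; omega⟩
  -- the constants
  obtain ⟨κ, hκ⟩ : ∃ κ : ℝ, κ = (d / 8) / 30 * ((d / 8 / 8) ^ 2 / 9) ^ 2 * (d / 2) := ⟨_, rfl⟩
  have hκ0 : 0 < κ := by rw [hκ]; positivity
  obtain ⟨r, hr⟩ := exists_nat_gt (8 * M / κ)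
  obtain ⟨g, hg⟩ : ∃ g, g = 2 * r + 2 := ⟨_, rfl⟩
  obtain ⟨K, hK⟩ : ∃ K : ℝ, K = 2 ^ (2 * 18 ^ r) * (2 * 36 ^ r) + 2 := ⟨_, rfl⟩
  have hK0 : 0 < K := by rw [hK]; positivity
  obtain ⟨η, hη⟩ : ∃ η : ℝ, η = min (d / 2 / (g * 2 ^ g)) (κ / 2 / K) := ⟨_, rfl⟩
  have hg0 : (0 : ℝ) < g * 2 ^ g := by
    have : (0 : ℝ) < g := by rw [hg]; positivity
    positivity
  have hη0 : 0 < η := by rw [hη]; positivity
  have hη1 : g * 2 ^ g * η ≤ d / 2 := by
    have : η ≤ d / 2 / (g * 2 ^ g) := hη ▸ min_le_left _ _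
    rw [le_div_iff₀ hg0] at this
    linarith
  have hη2 : K * η ≤ κ / 2 := by
    have : η ≤ κ / 2 / K := hη ▸ min_le_right _ _
    rw [le_div_iff₀ hK0] at this
    linarith
  refine ⟨η / 2, by positivity, ?_⟩
  intro V _ G ord hk
  by_contra hcon
  push Not at hcon
  obtain ⟨n, hn⟩ : ∃ n : ℝ, n = Fintype.card V := ⟨_, rfl⟩
  obtain ⟨k, hkk⟩ : ∃ k : ℝ, k = (edg G).card := ⟨_, rfl⟩
  rw [← hn, ← hkk] at hk hcon
  have hn0' : 0 ≤ n := by rw [hn]; positivity
  have hle := eps_le_half G ord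
  have hle' : ((eps G ord : ℚ) : ℝ) ≤ k / 2 := by
    have h1 : ((eps G ord : ℚ) : ℝ) ≤ ((((edg G).card : ℚ) / 2 : ℚ) : ℝ) := Rat.cast_le.mpr hle
    push_cast at h1
    rw [hkk]
    exact h1
  have hn0 : 0 < n := by
    rcases hn0'.eq_or_lt with h | h
    · rw [← h, mul_zero, sub_zero] at hcon
      linarith
    · exact h
  obtain ⟨A, hA⟩ : ∃ A, A = brokenCycleFree G ord := ⟨_, rfl⟩
  have hAlow : IsLowerSet (A : Set (Finset (Sym2 V))) := hA ▸ bcf_lower G ord
  have ha0 : (0 : ℝ) < A.card := by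
    have : (0 : ℤ) < aa G ord := aa_pos G ord
    unfold aa at this
    rw [hA]
    exact_mod_cast this
  obtain ⟨D, hD⟩ : ∃ D : ℝ, D = ∑ e ∈ edg G, ((Dd A e).card : ℝ) := ⟨_, rfl⟩
  have hDlt : D < η * n * A.card := by
    have h1 := sum_Dd G ord
    rw [← hA, ← hD, ← hkk] at h1
    rw [h1]
    refine mul_lt_mul_of_pos_right ?_ ha0
    linarith
  -- no short cycles
  obtain ⟨G₁, hG₁, hshort, hG₁e⟩ := kill_short ord g _ G le_rfl rfl
  rw [← hA, ← hkk] at hG₁e
  have hG₁k : (3 / 2 + d / 2) * n ≤ (edg G₁).card := by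
    have h1 : g * 2 ^ g * ∑ e ∈ edg G \ edg G₁, ((Dd A e).card : ℝ) ≤ g * 2 ^ g * D := by
      refine mul_le_mul_of_nonneg_left ?_ hg0.le
      rw [hD]
      exact sum_le_sum_of_subset_of_nonneg sdiff_subset fun _ _ _ => Nat.cast_nonneg _
    have h2 : (k - (edg G₁).card) * A.card ≤ (d / 2 * n) * A.card := by
      refine hG₁e.trans (h1.trans ?_)
      calc g * 2 ^ g * D ≤ g * 2 ^ g * (η * n * A.card) := mul_le_mul_of_nonneg_left hDlt.le hg0.le
        _ = (g * 2 ^ g * η) * (n * A.card) := by ring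
        _ ≤ d / 2 * (n * A.card) := mul_le_mul_of_nonneg_right hη1 (by positivity)
        _ = _ := by ring
    have h3 := le_of_mul_le_mul_right h2 ha0
    have h4 : (3 / 2 + d) * n ≤ k := by
      refine le_trans ?_ hk
      exact mul_le_mul_of_nonneg_right (by linarith) hn0.le
    linarith
  -- the core
  obtain ⟨X, hX1, hX2⟩ := core G₁ (3 / 2 + d / 4)
  rw [← hn] at hX2
  obtain ⟨G₂, hG₂⟩ : ∃ G₂, G₂ = ind G₁ X := ⟨_, rfl⟩
  rw [← hG₂] at hX1 hX2
  have hG₂le : G₂ ≤ G₁ := by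
    rw [hG₂]
    intro x y h
    exact h.1
  have hshort₂ : NoShort G₂ g := by
    intro v c hc
    have h1 : ∀ e ∈ c.edges, e ∈ G₁.edgeSet := fun e he =>
      SimpleGraph.edgeSet_mono hG₂le (c.edges_subset_edgeSet he)
    have h2 := hshort v (c.transfer G₁ h1) (hc.transfer h1)
    rwa [SimpleGraph.Walk.length_transfer] at h2
  obtain ⟨e₂, he₂⟩ : ∃ e₂ : ℝ, e₂ = (edg G₂).card := ⟨_, rfl⟩
  rw [← he₂] at hX2
  have hX0 : (0 : ℝ) ≤ X.card := Nat.cast_nonneg _
  have hcore : (3 / 2 + d / 4) * X.card + d / 4 * n ≤ e₂ := by linarith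
  have hdeg : ∀ v ∈ X, 2 ≤ (nbr G₂ v).card := by
    intro v hv
    have h1 := hX1 v hv
    by_contra hcon2
    push Not at hcon2
    have h2 : (nbr G₂ v).card ≤ 1 := by omega
    have h3 : ((nbr G₂ v).card : ℝ) ≤ 1 := by exact_mod_cast h2
    linarith
  have hadjX : ∀ {x v : V}, G₂.Adj x v → v ∈ X := by
    intro x v h
    rw [hG₂] at h
    exact h.2.2
  obtain ⟨C, hC⟩ := exists_CS G₂
  have hm : ∀ {x v : V}, G₂.Adj x v → 1 ≤ C.m v := by
    intro x v h
    rw [hC]
    have := hdeg v (hadjX h)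
    omega
  have hm9 : ∀ v, C.m v ≤ 9 := by
    intro v
    rw [hC]
    omega
  -- the survival probability
  obtain ⟨p, hp⟩ : ∃ p : ℝ, p = (M - 1) / (2 * M) := ⟨_, rfl⟩
  have hp' : p = M' / (2 * M) := by rw [hp, hMR]; ring
  have hp0 : 0 < p := by rw [hp']; positivity
  have hp1 : p ≤ 1 := by
    rw [hp', div_le_one (by positivity), hMR]
    linarith
  have hlogp : - (d / 16) ≤ Real.log (2 * p) := by
    have h1 : 2 * p = M' / M := by
      rw [hp']
      field_simp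
    have h2 : (0 : ℝ) < M' / M := by positivity
    have h3 := Real.one_sub_inv_le_log_of_pos h2
    rw [h1]
    have h4 : 1 - ((M' : ℝ) / M)⁻¹ = - (1 / M') := by
      rw [inv_div, hMR]
      field_simp
      ring
    rw [h4] at h3
    linarith
  have hsumdeg : ∑ v, ((nbr G₂ v).card : ℝ) = 2 * e₂ := by
    rw [he₂]
    exact_mod_cast handshake G₂
  have hsumdegX : ∑ v ∈ X, ((nbr G₂ v).card : ℝ) = 2 * e₂ := by
    rw [← hsumdeg]
    refine sum_subset (subset_univ X) fun v _ hv => ?_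
    have : nbr G₂ v = ∅ := by
      rw [eq_empty_iff_forall_notMem]
      intro x hx
      exact hv (hadjX (mem_nbr.mp hx).symm)
    rw [this]
    simp
  have he₂0 : 0 < e₂ := by
    have : 0 < d / 4 * n := by positivity
    have : 0 ≤ (3 / 2 + d / 4) * (X.card : ℝ) := by positivity
    linarith
  have hlogsum : d / 8 * ∑ v, ((nbr G₂ v).card : ℝ) ≤
      ∑ v, ∑ _x ∈ nbr G₂ v, Real.log (p * C.m v) := by
    have h1 : ∑ v ∈ X, (((nbr G₂ v).card : ℝ) * Real.log (2 * p) +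
        3 / 2 * ((nbr G₂ v).card - 3)) ≤ ∑ v, ∑ _x ∈ nbr G₂ v, Real.log (p * C.m v) := by
      have h2 : ∑ v, ∑ _x ∈ nbr G₂ v, Real.log (p * C.m v) =
          ∑ v ∈ X, ((nbr G₂ v).card : ℝ) * Real.log (p * C.m v) := by
        simp_rw [sum_const, nsmul_eq_mul]
        symm
        refine sum_subset (subset_univ X) fun v _ hv => ?_
        have : nbr G₂ v = ∅ := by
          rw [eq_empty_iff_forall_notMem]
          intro x hx
          exact hv (hadjX (mem_nbr.mp hx).symm)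
        rw [this]
        simp
      rw [h2]
      refine sum_le_sum fun v hv => ?_
      have h3 := tangent _ (hdeg v hv)
      have hm1 : 1 ≤ C.m v := by
        rw [hC]
        have := hdeg v hv
        omega
      have hm1' : (0 : ℝ) < C.m v := by exact_mod_cast hm1
      rw [hC v] at hm1' ⊢
      rw [Real.log_mul hp0.ne' hm1'.ne', Real.log_mul (by norm_num) hp0.ne']
      linarith
    refine le_trans ?_ h1
    rw [sum_add_distrib, ← sum_mul, hsumdegX, ← mul_sum, sum_sub_distrib, hsumdegX, sum_const,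
      nsmul_eq_mul, hsumdeg]
    have h4 : 2 * e₂ * (- (d / 16)) ≤ 2 * e₂ * Real.log (2 * p) :=
      mul_le_mul_of_nonneg_left hlogp (by positivity)
    have h5 : 2 * e₂ * (3 * d / 16) ≤ 3 / 2 * (2 * e₂ - X.card * 3) := by
      have h6 : 0 ≤ d / 4 * n := by positivity
      have h7 : (3 / 2 + d / 4) * X.card ≤ e₂ := by linarith
      have h8 := mul_le_mul_of_nonneg_left h7 (by linarith : (0 : ℝ) ≤ 3 - 3 * d / 8)
      have h9 : (d * d) * X.card ≤ d * X.card :=
        mul_le_mul_of_nonneg_right (by nlinarith) hX0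
      have h10 : 0 ≤ d * X.card := by positivity
      linarith
    linarith
  have hmany := many_both C hp0 hp1 hm hm9 (δ := d / 8) (by positivity) (by linarith) hlogsum r
  have hκn : κ * n ≤ ∑ v, ∑ w ∈ nbr G₂ v, th C p r v w * th C p r w v := by
    refine le_trans ?_ hmany
    rw [hκ, hsumdeg]
    have h1 : d / 2 * n ≤ 2 * e₂ := by
      have : 0 ≤ (3 / 2 + d / 4) * (X.card : ℝ) := by positivity
      linarith
    calc d / 8 / 30 * ((d / 8 / 8) ^ 2 / 9) ^ 2 * (d / 2) * n =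
          d / 8 / 30 * ((d / 8 / 8) ^ 2 / 9) ^ 2 * (d / 2 * n) := by ring
      _ ≤ _ := mul_le_mul_of_nonneg_left h1 (by positivity)
  -- the upper bound
  obtain ⟨N, hN⟩ : ∃ N : ℝ, N = (M : ℝ) ^ Fintype.card (Sym2 V) := ⟨_, rfl⟩
  have hN0 : 0 < N := by rw [hN]; positivity
  have hupper : (∑ c : Sym2 V → Fin M, ∑ F ∈ A, ∑ v, ∑ x ∈ nbr G₂ v,
      if (c s(x, v) = 0 ∧ s(x, v) ∈ F ∧ Both C r x v (F, c)) then (1 : ℝ) else 0) * (r + 1) ≤
      N * (A.card * (2 * n)) := by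
    rw [sum_mul]
    have h1 : ∀ c : Sym2 V → Fin M, (∑ F ∈ A, ∑ v, ∑ x ∈ nbr G₂ v,
        if (c s(x, v) = 0 ∧ s(x, v) ∈ F ∧ Both C r x v (F, c)) then (1 : ℝ) else 0) * (r + 1) ≤
        A.card * (2 * n) := by
      intro c
      rw [sum_mul]
      calc _ ≤ ∑ F ∈ A, (2 * n) := by
            refine sum_le_sum fun F hF => ?_
            rw [hA] at hF
            rw [hn]
            exact config_upper C hshort₂ (by omega) (bcf_acyclic hF) (bcf_not_isDiag hF) c
        _ = A.card * (2 * n) := by rw [sum_const, nsmul_eq_mul]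
    calc _ ≤ ∑ c : Sym2 V → Fin M, A.card * (2 * n) := sum_le_sum fun c _ => h1 c
      _ = N * (A.card * (2 * n)) := by
          rw [sum_const, nsmul_eq_mul, card_univ, Fintype.card_fun, Fintype.card_fin, hN]
          push_cast
          rfl
  -- the lower bound
  have hlower : N / M * (A.card * (κ * n) - K * D) ≤
      2 * ∑ c : Sym2 V → Fin M, ∑ F ∈ A, ∑ v, ∑ x ∈ nbr G₂ v,
      if (c s(x, v) = 0 ∧ s(x, v) ∈ F ∧ Both C r x v (F, c)) then (1 : ℝ) else 0 := by
    have e1 : ∑ c : Sym2 V → Fin M, ∑ F ∈ A, ∑ v, ∑ x ∈ nbr G₂ v,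
        (if (c s(x, v) = 0 ∧ s(x, v) ∈ F ∧ Both C r x v (F, c)) then (1 : ℝ) else 0) =
        ∑ v, ∑ x ∈ nbr G₂ v, ∑ c : Sym2 V → Fin M, ∑ F ∈ A,
        if (c s(x, v) = 0 ∧ s(x, v) ∈ F ∧ Both C r x v (F, c)) then (1 : ℝ) else 0 := by
      have e2 : ∀ c : Sym2 V → Fin M, ∑ F ∈ A, ∑ v, ∑ x ∈ nbr G₂ v,
          (if (c s(x, v) = 0 ∧ s(x, v) ∈ F ∧ Both C r x v (F, c)) then (1 : ℝ) else 0) =
          ∑ v, ∑ x ∈ nbr G₂ v, ∑ F ∈ A,
          if (c s(x, v) = 0 ∧ s(x, v) ∈ F ∧ Both C r x v (F, c)) then (1 : ℝ) else 0 := by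
        intro c
        rw [sum_comm]
        exact sum_congr rfl fun v _ => sum_comm
      rw [sum_congr rfl fun c _ => e2 c, sum_comm]
      exact sum_congr rfl fun v _ => sum_comm
    rw [e1, mul_sum]
    simp_rw [mul_sum (nbr G₂ _)]
    have h1 : ∑ v, ∑ x ∈ nbr G₂ v, (N / M * ((A.card : ℝ) * (th C p r x v * th C p r v x) -
        2 ^ (2 * 18 ^ r) * (∑ e ∈ Tt C r x v, ((Dd A e).card : ℝ) +
        ∑ e ∈ Tt C r v x, ((Dd A e).card : ℝ)) - (Dd A s(x, v)).card)) ≤
        ∑ v, ∑ x ∈ nbr G₂ v, 2 * ∑ c : Sym2 V → Fin M, ∑ F ∈ A,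
        if (c s(x, v) = 0 ∧ s(x, v) ∈ F ∧ Both C r x v (F, c)) then (1 : ℝ) else 0 := by
      refine sum_le_sum fun v _ => sum_le_sum fun x hx => ?_
      rw [hN, hp]
      exact dart_lower C hshort₂ (by omega) hm9 hAlow (mem_nbr.mp hx).symm
    refine le_trans ?_ h1
    have hDd : ∀ e, (0 : ℝ) ≤ ((Dd A e).card : ℝ) := fun e => Nat.cast_nonneg _
    have hedgle : edg G₂ ⊆ edg G := by
      intro e he
      rw [mem_edg] at he ⊢
      exact SimpleGraph.edgeSet_mono (hG₂le.trans hG₁) he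
    have hDG₂ : ∑ e ∈ edg G₂, ((Dd A e).card : ℝ) ≤ D := by
      rw [hD]
      exact sum_le_sum_of_subset_of_nonneg hedgle fun e _ _ => hDd e
    have h2 : ∑ v, ∑ x ∈ nbr G₂ v, ∑ e ∈ Tt C r x v, ((Dd A e).card : ℝ) ≤ 36 ^ r * D :=
      (sum_Tt C hm9 (fun e => ((Dd A e).card : ℝ)) hDd r).trans
        (mul_le_mul_of_nonneg_left hDG₂ (by positivity))
    have h3 : ∑ v, ∑ x ∈ nbr G₂ v, ∑ e ∈ Tt C r v x, ((Dd A e).card : ℝ) ≤ 36 ^ r * D := by
      rw [← dart_swap fun x v => ∑ e ∈ Tt C r x v, ((Dd A e).card : ℝ)]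
      exact h2
    have h4 : ∑ v, ∑ x ∈ nbr G₂ v, ((Dd A s(x, v)).card : ℝ) ≤ 2 * D := by
      have h5 := dart_edge G₂ (fun e => ((Dd A e).card : ℝ)) hDd
      have h6 : ∑ v, ∑ x ∈ nbr G₂ v, ((Dd A s(x, v)).card : ℝ) =
          ∑ v, ∑ x ∈ nbr G₂ v, ((Dd A s(v, x)).card : ℝ) :=
        sum_congr rfl fun v _ => sum_congr rfl fun x _ => by rw [Sym2.eq_swap]
      rw [h6]
      exact h5.trans (mul_le_mul_of_nonneg_left hDG₂ (by norm_num))
    have h5 : κ * n ≤ ∑ v, ∑ x ∈ nbr G₂ v, th C p r x v * th C p r v x := by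
      rw [dart_swap fun x v => th C p r x v * th C p r v x]
      exact hκn
    have e3 : ∑ v, ∑ x ∈ nbr G₂ v, (N / M * ((A.card : ℝ) * (th C p r x v * th C p r v x) -
        2 ^ (2 * 18 ^ r) * (∑ e ∈ Tt C r x v, ((Dd A e).card : ℝ) +
        ∑ e ∈ Tt C r v x, ((Dd A e).card : ℝ)) - (Dd A s(x, v)).card)) =
        N / M * ((A.card : ℝ) * (∑ v, ∑ x ∈ nbr G₂ v, th C p r x v * th C p r v x) -
        2 ^ (2 * 18 ^ r) * (∑ v, ∑ x ∈ nbr G₂ v, ∑ e ∈ Tt C r x v, ((Dd A e).card : ℝ) +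
        ∑ v, ∑ x ∈ nbr G₂ v, ∑ e ∈ Tt C r v x, ((Dd A e).card : ℝ)) -
        ∑ v, ∑ x ∈ nbr G₂ v, ((Dd A s(x, v)).card : ℝ)) := by
      simp_rw [← mul_sum, sum_sub_distrib, ← mul_sum, sum_add_distrib]
    rw [e3]
    refine mul_le_mul_of_nonneg_left ?_ (by positivity)
    have h6 := mul_le_mul_of_nonneg_left h5 ha0.le
    have h7 := mul_le_mul_of_nonneg_left (add_le_add h2 h3)
      (by positivity : (0 : ℝ) ≤ 2 ^ (2 * 18 ^ r))
    have e4 : K * D = 2 ^ (2 * 18 ^ r) * (36 ^ r * D + 36 ^ r * D) + 2 * D := by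
      rw [hK]
      ring
    rw [e4]
    linarith
  -- the contradiction
  have hKD : K * D ≤ A.card * (κ / 2 * n) := by
    calc K * D ≤ K * (η * n * A.card) := mul_le_mul_of_nonneg_left hDlt.le hK0.le
      _ = (K * η) * (n * A.card) := by ring
      _ ≤ κ / 2 * (n * A.card) := mul_le_mul_of_nonneg_right hη2 (by positivity)
      _ = _ := by ring
  have hr0 : (0 : ℝ) < r + 1 := by positivity
  have h1 : N / M * (A.card * (κ * n) - K * D) * (r + 1) ≤ 2 * (N * (A.card * (2 * n))) := by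
    calc _ ≤ (2 * ∑ c : Sym2 V → Fin M, ∑ F ∈ A, ∑ v, ∑ x ∈ nbr G₂ v,
          if (c s(x, v) = 0 ∧ s(x, v) ∈ F ∧ Both C r x v (F, c)) then (1 : ℝ) else 0) *
          (r + 1) := mul_le_mul_of_nonneg_right hlower hr0.le
      _ ≤ _ := by linarith
  have h2 : N / M * (A.card * (κ / 2 * n)) * (r + 1) ≤ N / M * (A.card * (κ * n) - K * D) * (r + 1) := by
    refine mul_le_mul_of_nonneg_right (mul_le_mul_of_nonneg_left ?_ (by positivity)) hr0.le
    linarith
  have h3 : (r + 1 : ℝ) * κ ≤ 8 * M := by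
    have h4 := h2.trans h1
    have h5 : (N * A.card * n / (2 * M)) * ((r + 1 : ℝ) * κ) ≤ (N * A.card * n / (2 * M)) * (8 * M) := by
      calc (N * A.card * n / (2 * M)) * ((r + 1 : ℝ) * κ) =
            N / M * (A.card * (κ / 2 * n)) * (r + 1) := by ring
        _ ≤ 2 * (N * (A.card * (2 * n))) := h4
        _ = _ := by field_simp; ring
    exact le_of_mul_le_mul_left h5 (by positivity)
  have h4 : 8 * (M : ℝ) < r * κ := by
    rwa [div_lt_iff₀ hκ0] at hr
  linarith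

end Pool.Agent.Work.MP_6229d2_co.Thr
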