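import Pool.Agent.Work.MP_6229d2_co.Thr.Events

set_option autoImplicit false

/-! Few edges of a forest join large components of a part of it. -/

namespace Pool.Agent.Work.MP_6229d2_co.Thr

open scoped Classical
open Finset

variable {V : Type} [Fintype V]

theorem forest_bound (F B : Finset (Sym2 V)) (hdisj : Disjoint F B)
    (hac : (SimpleGraph.fromEdgeSet ((F ∪ B : Finset (Sym2 V)) : Set (Sym2 V))).IsAcyclic)
    (hd : ∀ e ∈ F ∪ B, ¬ e.IsDiag) (R : ℕ)
    (hR : ∀ e ∈ B, ∀ v ∈ e, R ≤ (univ.filter fun u =>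
      (SimpleGraph.fromEdgeSet (F : Set (Sym2 V))).Reachable v u).card) :
    B.card * R ≤ Fintype.card V := by
  obtain ⟨H, hH⟩ : ∃ H, H = SimpleGraph.fromEdgeSet (F : Set (Sym2 V)) := ⟨_, rfl⟩
  obtain ⟨K, hK⟩ : ∃ K : Finset H.ConnectedComponent, K = univ.filter fun c =>
      R ≤ (univ.filter fun u => H.connectedComponentMk u = c).card := ⟨_, rfl⟩
  have hBK : ∀ e ∈ B, ∀ v ∈ e, H.connectedComponentMk v ∈ K := by
    intro e he v hv
    rw [hK, mem_filter]
    refine ⟨mem_univ _, (hR e he v hv).trans (card_le_card ?_)⟩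
    intro u hu
    rw [mem_filter] at hu ⊢
    refine ⟨mem_univ _, ?_⟩
    rw [SimpleGraph.ConnectedComponent.eq, hH]
    exact hu.2.symm
  have hA : K.card * R ≤ Fintype.card V := by
    have h1 : Fintype.card V = ∑ c : H.ConnectedComponent,
        (univ.filter fun u => H.connectedComponentMk u = c).card := by
      rw [← card_univ, card_eq_sum_card_fiberwise (f := fun u => H.connectedComponentMk u)
        (t := univ) (fun _ _ => mem_univ _)]
    rw [h1, ← smul_eq_mul, ← sum_const]
    refine (sum_le_sum fun c hc => ?_).trans (sum_le_sum_of_subset (subset_univ K))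
    rw [hK, mem_filter] at hc
    exact hc.2
  have hconst : ∀ f ∈ monoSet (ZMod 2) F, ∀ u v, H.connectedComponentMk u =
      H.connectedComponentMk v → f u = f v := by
    intro f hf u v h
    rw [mem_monoSet] at hf
    rw [SimpleGraph.ConnectedComponent.eq, hH] at h
    exact mono_of_reachable f (F : Set (Sym2 V)) (fun e he => hf e (mem_coe.mp he)) h
  have hBc : (monoSet (ZMod 2) F).card ≤ 2 ^ K.card * (monoSet (ZMod 2) (F ∪ B)).card := by
    rw [← card_powerset, ← card_product]
    refine card_le_card_of_injOn (fun f => (K.filter fun c => ∃ v, H.connectedComponentMk v = c ∧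
      f v = 1, fun v => if H.connectedComponentMk v ∈ K then 0 else f v)) ?_ ?_
    · intro f hf
      rw [mem_coe] at hf
      rw [mem_coe, mem_product]
      refine ⟨mem_powerset.mpr (filter_subset _ _), ?_⟩
      rw [mem_monoSet]
      intro e he
      induction e using Sym2.ind with
      | _ u v =>
        rw [mono_mk]
        simp only
        rcases mem_union.mp he with h | h
        · have h1 : H.connectedComponentMk u = H.connectedComponentMk v := by
            rw [SimpleGraph.ConnectedComponent.eq, hH]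
            refine SimpleGraph.Adj.reachable ?_
            rw [SimpleGraph.fromEdgeSet_adj]
            refine ⟨mem_coe.mpr h, ?_⟩
            rintro rfl
            exact hd _ he (by simp)
          rw [h1, hconst f hf u v h1]
        · rw [if_pos (hBK _ h u (Sym2.mem_mk_left u v)),
            if_pos (hBK _ h v (Sym2.mem_mk_right u v))]
    · intro f hf f' hf' h
      rw [mem_coe] at hf hf'
      rw [Prod.mk.injEq] at h
      obtain ⟨h1, h2⟩ := h
      funext v
      by_cases hv : H.connectedComponentMk v ∈ K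
      · have h3 : ∀ g ∈ monoSet (ZMod 2) F, (g v = 1 ↔ H.connectedComponentMk v ∈
            K.filter fun c => ∃ u, H.connectedComponentMk u = c ∧ g u = 1) := by
          intro g hg
          rw [mem_filter]
          constructor
          · intro h; exact ⟨hv, v, rfl, h⟩
          · rintro ⟨_, u, hu, hgu⟩
            rw [← hgu]
            exact (hconst g hg u v hu).symm
        have h4 : f v = 1 ↔ f' v = 1 := by
          rw [h3 f hf, h3 f' hf', h1]
        have h5 : ∀ z : ZMod 2, z = 0 ∨ z = 1 := by decide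
        rcases h5 (f v) with g | g <;> rcases h5 (f' v) with g' | g'
        · rw [g, g']
        · exact absurd (h4.mpr g') (by rw [g]; decide)
        · exact absurd (h4.mp g) (by rw [g']; decide)
        · rw [g, g']
      · have := congrFun h2 v
        simp only [if_neg hv] at this
        exact this
  have h1 := card_monoSet_forest 2 F (by
    refine SimpleGraph.IsAcyclic.anti ?_ hac
    intro a b h
    rw [SimpleGraph.fromEdgeSet_adj] at h ⊢
    exact ⟨by rw [coe_union]; exact Or.inl h.1, h.2⟩) (fun e he => hd e (mem_union_left _ he))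
  have h2 := card_monoSet_forest 2 (F ∪ B) hac hd
  rw [card_union_of_disjoint hdisj] at h2
  have h3 : (monoSet (ZMod 2) (F ∪ B)).card * 2 ^ B.card = (monoSet (ZMod 2) F).card := by
    have h4 : ((monoSet (ZMod 2) (F ∪ B)).card * 2 ^ B.card) * 2 ^ F.card =
        (monoSet (ZMod 2) F).card * 2 ^ F.card := by
      rw [h1, ← h2, pow_add]
      ring
    exact Nat.eq_of_mul_eq_mul_right (by positivity) h4
  have hpos : 0 < (monoSet (ZMod 2) (F ∪ B)).card := by
    rcases Nat.eq_zero_or_pos (monoSet (ZMod 2) (F ∪ B)).card with h | h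
    · rw [h, zero_mul] at h2
      have : 0 < 2 ^ Fintype.card V := by positivity
      omega
    · exact h
  rw [← h3, mul_comm] at hBc
  have h4 := Nat.le_of_mul_le_mul_right hBc hpos
  have h5 : B.card ≤ K.card := (Nat.pow_le_pow_iff_right (by norm_num)).mp h4
  exact (Nat.mul_le_mul_right R h5).trans hA

/-! ### Sums over the supports -/

section
variable {G : SimpleGraph V}

lemma dart_edge (G : SimpleGraph V) (h : Sym2 V → ℝ) (hh : ∀ e, 0 ≤ h e) :
    ∑ v, ∑ w ∈ nbr G v, h s(v, w) ≤ 2 * ∑ e ∈ edg G, h e := by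
  have e1 : ∀ v, ∑ w ∈ nbr G v, h s(v, w) = ∑ w, if G.Adj v w then h s(v, w) else 0 := by
    intro v
    unfold nbr
    rw [sum_filter]
  simp_rw [e1]
  rw [← Fintype.sum_prod_type' (f := fun v w => if G.Adj v w then h s(v, w) else 0), ← sum_filter]
  rw [← sum_fiberwise_of_maps_to (t := edg G) (g := fun z : V × V => s(z.1, z.2))]
  · rw [mul_sum]
    refine sum_le_sum fun e he => ?_
    rw [sum_congr rfl (g := fun _ => h e) (fun z hz => by rw [(mem_filter.mp hz).2]),
      sum_const, nsmul_eq_mul]
    refine mul_le_mul_of_nonneg_right ?_ (hh e)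
    induction e using Sym2.ind with
    | _ a b =>
      have h2 : (((univ : Finset (V × V)).filter fun z => G.Adj z.1 z.2).filter
          fun z => s(z.1, z.2) = s(a, b)) ⊆ {(a, b), (b, a)} := by
        rintro ⟨x, y⟩ hz
        rw [mem_filter, mem_filter, Sym2.eq_iff] at hz
        rw [mem_insert, mem_singleton, Prod.mk.injEq, Prod.mk.injEq]
        exact hz.2
      have h3 := (card_le_card h2).trans card_le_two
      exact_mod_cast h3
  · rintro ⟨x, y⟩ hz
    rw [mem_filter] at hz
    rw [mem_edg, SimpleGraph.mem_edgeSet]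
    exact hz.2

lemma card_Tt (C : CS G) (hm9 : ∀ v, C.m v ≤ 9) : ∀ (j : ℕ) (x v : V), G.Adj x v →
    (Tt C j x v).card ≤ 18 ^ j := by
  intro j
  induction j with
  | zero => intro x v _; rw [Tt]; simp
  | succ j ih =>
    intro x v hxv
    rw [Tt]
    calc ((C.Ch x v).biUnion fun w => insert s(v, w) (Tt C j v w)).card
        ≤ ∑ w ∈ C.Ch x v, (insert s(v, w) (Tt C j v w)).card := card_biUnion_le
      _ ≤ ∑ w ∈ C.Ch x v, (18 ^ j + 1) := sum_le_sum fun w hw =>
          (card_insert_le _ _).trans (Nat.add_le_add_right (ih v w (C.adj hxv hw)) 1)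
      _ = (C.Ch x v).card * (18 ^ j + 1) := by rw [sum_const, smul_eq_mul]
      _ ≤ 9 * (18 ^ j + 1) := by
          refine Nat.mul_le_mul_right _ ?_
          rw [C.card hxv]
          exact hm9 v
      _ ≤ 18 ^ (j + 1) := by
          have : 1 ≤ 18 ^ j := Nat.one_le_pow _ _ (by norm_num)
          rw [pow_succ]
          omega

lemma sum_Tt (C : CS G) (hm9 : ∀ v, C.m v ≤ 9) (h : Sym2 V → ℝ) (hh : ∀ e, 0 ≤ h e) : ∀ j : ℕ,
    ∑ v, ∑ x ∈ nbr G v, ∑ f ∈ Tt C j x v, h f ≤ 36 ^ j * ∑ e ∈ edg G, h e := by
  intro j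
  have hD : 0 ≤ ∑ e ∈ edg G, h e := sum_nonneg fun e _ => hh e
  induction j with
  | zero =>
    simp only [Tt, sum_empty, sum_const_zero]
    positivity
  | succ j ih =>
    calc ∑ v, ∑ x ∈ nbr G v, ∑ f ∈ Tt C (j + 1) x v, h f
        ≤ ∑ v, ∑ x ∈ nbr G v, ∑ w ∈ C.Ch x v, (h s(v, w) + ∑ f ∈ Tt C j v w, h f) := by
          refine sum_le_sum fun v _ => sum_le_sum fun x _ => ?_
          rw [Tt]
          have key : ∀ s : Finset V, ∑ f ∈ s.biUnion (fun w => insert s(v, w) (Tt C j v w)), h f ≤
              ∑ w ∈ s, (h s(v, w) + ∑ f ∈ Tt C j v w, h f) := by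
            intro s
            induction s using Finset.induction_on with
            | empty => simp
            | insert w s hw ihs =>
              rw [biUnion_insert, sum_insert hw]
              have h1 : ∀ A B : Finset (Sym2 V), ∑ f ∈ A ∪ B, h f ≤ ∑ f ∈ A, h f + ∑ f ∈ B, h f := by
                intro A B
                have := sum_union_inter (s₁ := A) (s₂ := B) (f := h)
                have h2 : 0 ≤ ∑ f ∈ A ∩ B, h f := sum_nonneg fun e _ => hh e
                linarith
              refine (h1 _ _).trans (add_le_add ?_ ihs)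
              rw [insert_eq]
              refine (h1 _ _).trans ?_
              rw [sum_singleton]
          exact key _
      _ = ∑ v, ∑ w ∈ nbr G v, (C.m v : ℝ) * (h s(v, w) + ∑ f ∈ Tt C j v w, h f) :=
          flow C fun v w => h s(v, w) + ∑ f ∈ Tt C j v w, h f
      _ ≤ ∑ v, ∑ w ∈ nbr G v, 9 * (h s(v, w) + ∑ f ∈ Tt C j v w, h f) := by
          refine sum_le_sum fun v _ => sum_le_sum fun w _ => ?_
          refine mul_le_mul_of_nonneg_right (by exact_mod_cast hm9 v) ?_
          exact add_nonneg (hh _) (sum_nonneg fun e _ => hh e)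
      _ = 9 * (∑ v, ∑ w ∈ nbr G v, h s(v, w)) +
          9 * ∑ v, ∑ x ∈ nbr G v, ∑ f ∈ Tt C j x v, h f := by
          rw [dart_swap fun x v => ∑ f ∈ Tt C j x v, h f]
          simp_rw [mul_add, sum_add_distrib, ← mul_sum]
      _ ≤ 9 * (2 * ∑ e ∈ edg G, h e) + 9 * (36 ^ j * ∑ e ∈ edg G, h e) := by
          have := dart_edge G h hh
          linarith
      _ ≤ 36 ^ (j + 1) * ∑ e ∈ edg G, h e := by
          have h1 : (1 : ℝ) ≤ 36 ^ j := one_le_pow₀ (by norm_num)
          rw [pow_succ]
          nlinarith

end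

end Pool.Agent.Work.MP_6229d2_co.Thr
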