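import Pool.Agent.Work.MP_6229d2_co.Thr.Theta

set_option autoImplicit false

/-! Removing short cycles and passing to a core. -/

namespace Pool.Agent.Work.MP_6229d2_co.Thr

open scoped Classical
open Finset

variable {V : Type} [Fintype V]

/-- there is no cycle with at most `g` edges -/
def NoShort (G : SimpleGraph V) (g : ℕ) : Prop :=
  ∀ (v : V) (c : G.Walk v v), c.IsCycle → g < c.length

lemma cycle_bound {G : SimpleGraph V} (ord : LinearOrder (Sym2 V)) {v : V} (c : G.Walk v v)
    (hc : c.IsCycle) {g : ℕ} (hg : c.length ≤ g) :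
    ((brokenCycleFree G ord).card : ℝ) ≤
      2 ^ g * ∑ e ∈ c.edges.toFinset, ((Dd (brokenCycleFree G ord) e).card : ℝ) := by
  have hne : c.edges.toFinset.Nonempty := by
    rw [List.toFinset_nonempty_iff]
    intro h
    have := hc.three_le_length
    rw [← SimpleGraph.Walk.length_edges, h] at this
    simp at this
  have hmem := @Finset.max'_mem _ ord _ hne
  have hmax := fun x hx => @Finset.le_max' _ ord c.edges.toFinset x hx
  obtain ⟨f, hf⟩ : ∃ f, f = @Finset.max' _ ord _ hne := ⟨_, rfl⟩
  rw [← hf] at hmem
  have h1 := card_le_of_no (A := brokenCycleFree G ord) (c.edges.toFinset.erase f) (by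
    intro F hF hsub
    unfold brokenCycleFree at hF
    rw [mem_filter] at hF
    refine hF.2.2 _ ⟨v, c, f, hc, List.mem_toFinset.mp hmem, ?_, rfl⟩ hsub
    intro e he
    have := hmax e (List.mem_toFinset.mpr he)
    rwa [← hf] at this)
  have h2 : (c.edges.toFinset.erase f).card ≤ g := by
    refine (card_le_card (erase_subset _ _)).trans ?_
    refine (List.toFinset_card_le _).trans ?_
    rw [SimpleGraph.Walk.length_edges]
    exact hg
  have h3 : ((brokenCycleFree G ord).card : ℝ) ≤ 2 ^ (c.edges.toFinset.erase f).card *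
      ∑ e ∈ c.edges.toFinset.erase f, ((Dd (brokenCycleFree G ord) e).card : ℝ) := by
    exact_mod_cast h1
  refine h3.trans ?_
  refine mul_le_mul (pow_le_pow_right₀ (by norm_num) h2) ?_
    (sum_nonneg fun _ _ => Nat.cast_nonneg _) (by positivity)
  exact sum_le_sum_of_subset_of_nonneg (erase_subset _ _) fun _ _ _ => Nat.cast_nonneg _

theorem kill_short {G : SimpleGraph V} (ord : LinearOrder (Sym2 V)) (g : ℕ) :
    ∀ (n : ℕ) (H : SimpleGraph V), H ≤ G → (edg H).card = n →
    ∃ H' : SimpleGraph V, H' ≤ H ∧ NoShort H' g ∧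
      (((edg H).card : ℝ) - (edg H').card) * (brokenCycleFree G ord).card ≤
        g * 2 ^ g * ∑ e ∈ edg H \ edg H', ((Dd (brokenCycleFree G ord) e).card : ℝ) := by
  intro n
  induction n using Nat.strong_induction_on with
  | _ n ih =>
    intro H hHG hn
    by_cases hH : NoShort H g
    · refine ⟨H, le_rfl, hH, ?_⟩
      rw [sub_self, zero_mul, sdiff_self]
      simp
    · unfold NoShort at hH
      push Not at hH
      obtain ⟨v, c, hc, hcg⟩ := hH
      obtain ⟨H₁, hH₁⟩ : ∃ H₁, H₁ = H.deleteEdges {e | e ∈ c.edges} := ⟨_, rfl⟩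
      have hle : H₁ ≤ H := hH₁ ▸ H.deleteEdges_le _
      have hcsub : c.edges.toFinset ⊆ edg H := by
        intro e he
        rw [mem_edg]
        exact c.edges_subset_edgeSet (List.mem_toFinset.mp he)
      have hedg : edg H₁ = edg H \ c.edges.toFinset := by
        ext e
        rw [mem_sdiff, mem_edg, mem_edg, hH₁, SimpleGraph.edgeSet_deleteEdges, List.mem_toFinset]
        rfl
      have hcard : c.edges.toFinset.card = c.length := by
        rw [List.toFinset_card_of_nodup hc.isTrail.edges_nodup, SimpleGraph.Walk.length_edges]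
      have h3 := hc.three_le_length
      have h4 : (edg H₁).card + c.length = (edg H).card := by
        rw [hedg, card_sdiff_of_subset hcsub, hcard]
        have := card_le_card hcsub
        rw [hcard] at this
        omega
      obtain ⟨H', hH'1, hH'2, hH'3⟩ := ih (edg H₁).card (by omega) H₁ (hle.trans hHG) rfl
      refine ⟨H', hH'1.trans hle, hH'2, ?_⟩
      have hcG : ∀ e ∈ c.edges, e ∈ G.edgeSet := fun e he =>
        SimpleGraph.edgeSet_mono hHG (c.edges_subset_edgeSet he)
      have h5 := cycle_bound ord (c.transfer G hcG) (hc.transfer hcG) (g := g) (by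
        rw [SimpleGraph.Walk.length_transfer]
        exact hcg)
      rw [SimpleGraph.Walk.edges_transfer] at h5
      have hsub' : edg H' ⊆ edg H₁ := by
        intro e he
        rw [mem_edg] at he ⊢
        exact SimpleGraph.edgeSet_mono hH'1 he
      have h6 : ∑ e ∈ c.edges.toFinset, ((Dd (brokenCycleFree G ord) e).card : ℝ) +
          ∑ e ∈ edg H₁ \ edg H', ((Dd (brokenCycleFree G ord) e).card : ℝ) ≤
          ∑ e ∈ edg H \ edg H', ((Dd (brokenCycleFree G ord) e).card : ℝ) := by
        rw [← sum_union]
        · refine sum_le_sum_of_subset_of_nonneg ?_ fun _ _ _ => Nat.cast_nonneg _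
          intro e he
          rw [mem_union, mem_sdiff] at he
          rw [mem_sdiff]
          rcases he with he | ⟨he, he'⟩
          · refine ⟨hcsub he, fun h => ?_⟩
            have := hsub' h
            rw [hedg, mem_sdiff] at this
            exact this.2 he
          · rw [hedg, mem_sdiff] at he
            exact ⟨he.1, he'⟩
        · rw [disjoint_left]
          intro e he he'
          rw [mem_sdiff, hedg, mem_sdiff] at he'
          exact he'.1.2 he
      have ha : (0 : ℝ) ≤ (brokenCycleFree G ord).card := Nat.cast_nonneg _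
      have h7 : ((edg H).card : ℝ) - (edg H₁).card ≤ g := by
        have h8 : (edg H).card ≤ (edg H₁).card + g := by omega
        have h9 : ((edg H).card : ℝ) ≤ (edg H₁).card + g := by exact_mod_cast h8
        linarith
      have h8 := mul_le_mul_of_nonneg_right h7 ha
      have h9 := mul_le_mul_of_nonneg_left h5 (Nat.cast_nonneg (α := ℝ) g)
      have h10 := mul_le_mul_of_nonneg_left h6 (by positivity : (0 : ℝ) ≤ g * 2 ^ g)
      calc (((edg H).card : ℝ) - (edg H').card) * (brokenCycleFree G ord).card =
            (((edg H).card : ℝ) - (edg H₁).card) * (brokenCycleFree G ord).card +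
            (((edg H₁).card : ℝ) - (edg H').card) * (brokenCycleFree G ord).card := by ring
        _ ≤ g * 2 ^ g * ∑ e ∈ c.edges.toFinset, ((Dd (brokenCycleFree G ord) e).card : ℝ) +
            g * 2 ^ g * ∑ e ∈ edg H₁ \ edg H', ((Dd (brokenCycleFree G ord) e).card : ℝ) := by
            refine add_le_add (h8.trans (h9.trans (le_of_eq ?_))) hH'3
            ring
        _ = g * 2 ^ g * (∑ e ∈ c.edges.toFinset, ((Dd (brokenCycleFree G ord) e).card : ℝ) +
            ∑ e ∈ edg H₁ \ edg H', ((Dd (brokenCycleFree G ord) e).card : ℝ)) := by ring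
        _ ≤ _ := h10

/-! ### The core -/

/-- the induced subgraph on `X` (the other vertices are isolated) -/
def ind (H : SimpleGraph V) (X : Finset V) : SimpleGraph V where
  Adj x y := H.Adj x y ∧ x ∈ X ∧ y ∈ X
  symm := ⟨fun _ _ h => ⟨h.1.symm, h.2.2, h.2.1⟩⟩
  loopless := ⟨fun x h => H.loopless.irrefl x h.1⟩

theorem core (H : SimpleGraph V) (β : ℝ) : ∃ X : Finset V,
    (∀ v ∈ X, β ≤ (nbr (ind H X) v).card) ∧
      ((edg H).card : ℝ) - β * Fintype.card V ≤ (edg (ind H X)).card - β * X.card := by
  obtain ⟨X, _, hX⟩ := exists_max_image (univ : Finset (Finset V))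
    (fun X => ((edg (ind H X)).card : ℝ) - β * X.card) ⟨∅, mem_univ _⟩
  refine ⟨X, ?_, ?_⟩
  · intro v hv
    have h1 := hX (X.erase v) (mem_univ _)
    have h2 : iso (ind H X) v = ind H (X.erase v) := by
      ext x y
      rw [iso_adj]
      simp only [ind, mem_erase, ne_eq]
      tauto
    have h3 := card_edg_iso (ind H X) v
    rw [h2] at h3
    have h4 := card_erase_add_one hv
    have h3' : ((edg (ind H X)).card : ℝ) = (edg (ind H (X.erase v))).card +
        (nbr (ind H X) v).card := by exact_mod_cast h3
    have h4' : ((X.erase v).card : ℝ) + 1 = X.card := by exact_mod_cast h4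
    rw [h3', ← h4'] at h1
    linarith
  · have h1 := hX univ (mem_univ _)
    have h2 : ind H univ = H := by
      ext x y
      simp [ind]
    rw [h2, card_univ] at h1
    exact h1

/-- the tangent inequality -/
lemma tangent (d : ℕ) (hd : 2 ≤ d) :
    (d : ℝ) * Real.log 2 + 3 / 2 * (d - 3) ≤ d * Real.log ((min (d - 1) 9 : ℕ) : ℝ) := by
  have e1 : Real.exp 1 < 2.7182818286 := Real.exp_one_lt_d9
  have e3 : Real.exp 3 < 20.2 := by
    have : Real.exp 3 = Real.exp 1 ^ 3 := by rw [← Real.exp_nat_mul]; norm_num
    rw [this]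
    calc Real.exp 1 ^ 3 < 2.7182818286 ^ 3 := pow_lt_pow_left₀ e1 (Real.exp_pos 1).le (by norm_num)
      _ < 20.2 := by norm_num
  have l2 : (0.6931471803 : ℝ) < Real.log 2 := Real.log_two_gt_d9
  have l2' : Real.log 2 < 0.6931471808 := Real.log_two_lt_d9
  -- lower bounds for logarithms
  have key : ∀ (k : ℕ) (q x : ℝ), 0 < k → 0 < x → (k : ℝ) * q = 3 → (20.2 : ℝ) ≤ x ^ k →
      q ≤ Real.log x := by
    intro k q x hk hx hq hxk
    have h1 : (3 : ℝ) ≤ k * Real.log x := by
      rw [← Real.log_pow, Real.le_log_iff_exp_le (by positivity)]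
      linarith
    have h2 : (0 : ℝ) < k := by exact_mod_cast hk
    rw [← hq] at h1
    exact le_of_mul_le_mul_left h1 h2
  rcases lt_or_ge d 10 with hd10 | hd10
  · interval_cases d
    · norm_num
      linarith
    · norm_num
    · have h1 := key 8 (3 / 8) (3 / 2) (by norm_num) (by norm_num) (by norm_num) (by norm_num)
      rw [Real.log_div (by norm_num) (by norm_num)] at h1
      norm_num
      linarith
    · have h1 : Real.log 4 = 2 * Real.log 2 := by
        rw [show (4 : ℝ) = 2 ^ 2 by norm_num, Real.log_pow]; push_cast; ring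
      norm_num
      rw [h1]
      linarith
    · have h1 := key 4 (3 / 4) (5 / 2) (by norm_num) (by norm_num) (by norm_num) (by norm_num)
      rw [Real.log_div (by norm_num) (by norm_num)] at h1
      norm_num
      linarith
    · have h1 := key 3 1 (6 / 2) (by norm_num) (by norm_num) (by norm_num) (by norm_num)
      rw [Real.log_div (by norm_num) (by norm_num)] at h1
      norm_num
      linarith
    · have h1 := key 3 1 (7 / 2) (by norm_num) (by norm_num) (by norm_num) (by norm_num)
      rw [Real.log_div (by norm_num) (by norm_num)] at h1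
      norm_num
      linarith
    · have h1 := key 3 1 (8 / 2) (by norm_num) (by norm_num) (by norm_num) (by norm_num)
      rw [Real.log_div (by norm_num) (by norm_num)] at h1
      norm_num
      linarith
  · have h1 := key 2 (3 / 2) (9 / 2) (by norm_num) (by norm_num) (by norm_num) (by norm_num)
    rw [Real.log_div (by norm_num) (by norm_num)] at h1
    have h2 : min (d - 1) 9 = 9 := by omega
    rw [h2]
    have h3 : (0 : ℝ) ≤ d := Nat.cast_nonneg d
    have h4 := mul_le_mul_of_nonneg_left h1 h3
    push_cast
    linarith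

end Pool.Agent.Work.MP_6229d2_co.Thr
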