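import Pool.Agent.Work.MP_6229d2_co.Thr.Child

set_option autoImplicit false

/-! The survival recursion on a graph whose average degree exceeds three. -/

namespace Pool.Agent.Work.MP_6229d2_co.Thr

open scoped Classical
open Finset

variable {V : Type} [Fintype V] {G : SimpleGraph V}

/-- the survival recursion -/
noncomputable def th (C : CS G) (p : ℝ) : ℕ → V → V → ℝ
  | 0, _, _ => 1
  | j + 1, x, v => 1 - ∏ w ∈ C.Ch x v, (1 - p * th C p j v w)

section basic
variable (C : CS G) {p : ℝ} (hp0 : 0 < p) (hp1 : p ≤ 1) (hm : ∀ {x v}, G.Adj x v → 1 ≤ C.m v)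

include hp0 hp1 hm in
lemma th_bounds : ∀ (j : ℕ) (x v : V), G.Adj x v → 0 < th C p j x v ∧ th C p j x v ≤ 1 := by
  intro j
  induction j with
  | zero => intro x v _; exact ⟨one_pos, le_rfl⟩
  | succ j ih =>
    intro x v hxv
    have h1 : ∀ w ∈ C.Ch x v, 0 ≤ 1 - p * th C p j v w ∧ 1 - p * th C p j v w < 1 := by
      intro w hw
      obtain ⟨h2, h3⟩ := ih v w (C.adj hxv hw)
      have h4 : 0 < p * th C p j v w := mul_pos hp0 h2
      have h5 : p * th C p j v w ≤ 1 := mul_le_one₀ hp1 h2.le h3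
      exact ⟨by linarith, by linarith⟩
    have hne : (C.Ch x v).Nonempty := by
      rw [← card_pos, C.card hxv]
      exact hm hxv
    obtain ⟨w, hw⟩ := hne
    rw [th]
    have h2 : 0 ≤ ∏ w ∈ C.Ch x v, (1 - p * th C p j v w) := prod_nonneg fun w hw => (h1 w hw).1
    have h3 : ∏ w ∈ C.Ch x v, (1 - p * th C p j v w) < 1 := by
      rw [← mul_prod_erase _ _ hw]
      have h4 : ∏ z ∈ (C.Ch x v).erase w, (1 - p * th C p j v z) ≤ 1 :=
        prod_le_one (fun z hz => (h1 z (mem_of_mem_erase hz)).1)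
          fun z hz => (h1 z (mem_of_mem_erase hz)).2.le
      calc (1 - p * th C p j v w) * ∏ z ∈ (C.Ch x v).erase w, (1 - p * th C p j v z) ≤
          (1 - p * th C p j v w) * 1 := mul_le_mul_of_nonneg_left h4 (h1 w hw).1
        _ < 1 := by rw [mul_one]; exact (h1 w hw).2
    exact ⟨by linarith, by linarith⟩

include hp0 hp1 hm in
lemma th_anti : ∀ (j : ℕ) (x v : V), G.Adj x v → th C p (j + 1) x v ≤ th C p j x v := by
  intro j
  induction j with
  | zero => intro x v hxv; exact (th_bounds C hp0 hp1 hm 1 x v hxv).2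
  | succ j ih =>
    intro x v hxv
    rw [th, th]
    refine sub_le_sub_left (prod_le_prod (fun w hw => ?_) fun w hw => ?_) _
    · obtain ⟨h2, h3⟩ := th_bounds C hp0 hp1 hm j v w (C.adj hxv hw)
      have h5 : p * th C p j v w ≤ 1 := mul_le_one₀ hp1 h2.le h3
      linarith
    · have := mul_le_mul_of_nonneg_left (ih v w (C.adj hxv hw)) hp0.le
      linarith

include hp0 hp1 hm in
lemma th_ge_child {j : ℕ} {x v w : V} (hxv : G.Adj x v) (hw : w ∈ C.Ch x v) :
    p * th C p j v w ≤ th C p (j + 1) x v := by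
  have h1 : ∀ w ∈ C.Ch x v, 0 ≤ 1 - p * th C p j v w ∧ 1 - p * th C p j v w ≤ 1 := by
    intro w hw
    obtain ⟨h2, h3⟩ := th_bounds C hp0 hp1 hm j v w (C.adj hxv hw)
    have h4 : 0 < p * th C p j v w := mul_pos hp0 h2
    have h5 : p * th C p j v w ≤ 1 := mul_le_one₀ hp1 h2.le h3
    exact ⟨by linarith, by linarith⟩
  rw [th, ← mul_prod_erase _ _ hw]
  have h4 : ∏ z ∈ (C.Ch x v).erase w, (1 - p * th C p j v z) ≤ 1 :=
    prod_le_one (fun z hz => (h1 z (mem_of_mem_erase hz)).1)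
      fun z hz => (h1 z (mem_of_mem_erase hz)).2
  have := mul_le_mul_of_nonneg_left h4 (h1 w hw).1
  linarith

include hp0 hp1 hm in
lemma th_ge_exp {j : ℕ} {x v : V} (hxv : G.Adj x v) :
    1 - Real.exp (- ∑ w ∈ C.Ch x v, p * th C p j v w) ≤ th C p (j + 1) x v := by
  rw [th, ← sum_neg_distrib, Real.exp_sum]
  refine sub_le_sub_left (prod_le_prod (fun w hw => ?_) fun w hw => ?_) _
  · obtain ⟨h2, h3⟩ := th_bounds C hp0 hp1 hm j v w (C.adj hxv hw)
    have h5 : p * th C p j v w ≤ 1 := mul_le_one₀ hp1 h2.le h3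
    linarith
  · exact Real.one_sub_le_exp_neg _

end basic

/-! ### Sums over darts -/

lemma dart_swap (h : V → V → ℝ) :
    ∑ v, ∑ x ∈ nbr G v, h x v = ∑ v, ∑ w ∈ nbr G v, h v w := by
  have e1 : ∀ v, ∑ x ∈ nbr G v, h x v = ∑ x, if G.Adj v x then h x v else 0 := by
    intro v
    unfold nbr
    rw [sum_filter]
  have e2 : ∀ v, ∑ w ∈ nbr G v, h v w = ∑ w, if G.Adj v w then h v w else 0 := by
    intro v
    unfold nbr
    rw [sum_filter]
  simp_rw [e1, e2]
  rw [sum_comm]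
  refine sum_congr rfl fun x _ => sum_congr rfl fun v _ => ?_
  simp only [G.adj_comm]

lemma flow (C : CS G) (h : V → V → ℝ) :
    ∑ v, ∑ x ∈ nbr G v, ∑ w ∈ C.Ch x v, h v w = ∑ v, ∑ w ∈ nbr G v, (C.m v : ℝ) * h v w := by
  refine sum_congr rfl fun v _ => ?_
  have e1 : ∀ x ∈ nbr G v, ∑ w ∈ C.Ch x v, h v w =
      ∑ w ∈ nbr G v, if w ∈ C.Ch x v then h v w else 0 := by
    intro x hx
    rw [← sum_filter]
    refine sum_congr ?_ fun _ _ => rfl
    ext w
    rw [mem_filter]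
    refine ⟨fun hw => ⟨mem_nbr.mpr (C.adj (mem_nbr.mp hx).symm hw), hw⟩, fun hw => hw.2⟩
  rw [sum_congr rfl e1, sum_comm]
  refine sum_congr rfl fun w hw => ?_
  rw [← sum_filter, sum_const, nsmul_eq_mul, C.pred (mem_nbr.mp hw)]

/-! ### The losses -/

/-- the dart `x v` has two continuations with a large survival probability -/
def Dbl (C : CS G) (p η : ℝ) (j : ℕ) (x v : V) : Prop :=
  ∃ w₁ ∈ C.Ch x v, ∃ w₂ ∈ C.Ch x v, w₁ ≠ w₂ ∧ η ≤ p * th C p j v w₁ ∧ η ≤ p * th C p j v w₂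

lemma loss_le (C : CS G) {p : ℝ} (hp0 : 0 < p) (hp1 : p ≤ 1)
    (hm : ∀ {x v}, G.Adj x v → 1 ≤ C.m v) (hm9 : ∀ v, C.m v ≤ 9) {t : ℝ} (ht0 : 0 < t)
    (ht1 : t ≤ 1) (j : ℕ) {x v : V} (hxv : G.Adj x v) :
    Real.log (∑ w ∈ C.Ch x v, p * th C p j v w) - Real.log (th C p (j + 1) x v) ≤
      if Dbl C p (t ^ 2 / 9) j x v then Real.log 9 else 2 * t := by
  have hne : (C.Ch x v).Nonempty := by
    rw [← card_pos, C.card hxv]
    exact hm hxv
  obtain ⟨w₀, hw₀, hmax⟩ := exists_max_image (C.Ch x v) (fun w => p * th C p j v w) hne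
  have hpos : ∀ w ∈ C.Ch x v, 0 < p * th C p j v w := fun w hw =>
    mul_pos hp0 (th_bounds C hp0 hp1 hm j v w (C.adj hxv hw)).1
  obtain ⟨y, hy⟩ : ∃ y, y = ∑ w ∈ C.Ch x v, p * th C p j v w := ⟨_, rfl⟩
  obtain ⟨a, ha⟩ : ∃ a, a = p * th C p j v w₀ := ⟨_, rfl⟩
  have ha0 : 0 < a := ha ▸ hpos w₀ hw₀
  have hya : a ≤ y := by
    rw [ha, hy]
    exact single_le_sum (f := fun w => p * th C p j v w) (fun w hw => (hpos w hw).le) hw₀
  have hy0 : 0 < y := lt_of_lt_of_le ha0 hya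
  have hth : a ≤ th C p (j + 1) x v := ha ▸ th_ge_child C hp0 hp1 hm hxv hw₀
  have hth0 : 0 < th C p (j + 1) x v := lt_of_lt_of_le ha0 hth
  rw [← hy]
  have hcard9 : ((C.Ch x v).card : ℝ) ≤ 9 := by
    have := hm9 v
    rw [C.card hxv]
    exact_mod_cast this
  split_ifs with hD
  · have h1 : y ≤ 9 * a := by
      calc y ≤ ∑ w ∈ C.Ch x v, a := by
            rw [hy]
            exact sum_le_sum fun w hw => ha ▸ hmax w hw
        _ = (C.Ch x v).card * a := by rw [sum_const, nsmul_eq_mul]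
        _ ≤ 9 * a := mul_le_mul_of_nonneg_right hcard9 ha0.le
    have h2 : Real.log y ≤ Real.log 9 + Real.log a := by
      rw [← Real.log_mul (by norm_num) ha0.ne']
      exact Real.log_le_log hy0 h1
    have h3 := Real.log_le_log ha0 hth
    linarith
  · have h1 : y ≤ a + t ^ 2 := by
      rw [hy, ← add_sum_erase _ _ hw₀, ← ha]
      have h2 : ∑ w ∈ (C.Ch x v).erase w₀, p * th C p j v w ≤
          ∑ w ∈ (C.Ch x v).erase w₀, t ^ 2 / 9 := by
        refine sum_le_sum fun w hw => ?_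
        by_contra hcon
        push Not at hcon
        have hw' := mem_of_mem_erase hw
        exact hD ⟨w, hw', w₀, hw₀, ne_of_mem_erase hw, hcon.le, hcon.le.trans (hmax w hw')⟩
      have h3 : ∑ w ∈ (C.Ch x v).erase w₀, t ^ 2 / 9 ≤ t ^ 2 := by
        rw [sum_const, nsmul_eq_mul]
        have h4 : (((C.Ch x v).erase w₀).card : ℝ) ≤ 9 :=
          le_trans (by exact_mod_cast card_le_card (erase_subset _ _)) hcard9
        calc (((C.Ch x v).erase w₀).card : ℝ) * (t ^ 2 / 9) ≤ 9 * (t ^ 2 / 9) :=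
              mul_le_mul_of_nonneg_right h4 (by positivity)
          _ = t ^ 2 := by ring
      linarith
    by_cases hat : t ≤ a
    · have h2 : Real.log y - Real.log a ≤ t := by
        rw [← Real.log_div hy0.ne' ha0.ne']
        have h3 : y / a ≤ 1 + t := by
          rw [div_le_iff₀ ha0]
          nlinarith
        calc Real.log (y / a) ≤ Real.log (1 + t) := Real.log_le_log (by positivity) h3
          _ ≤ t := by
            have := Real.log_le_sub_one_of_pos (by linarith : (0 : ℝ) < 1 + t)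
            linarith
      have h3 := Real.log_le_log ha0 hth
      linarith
    · push Not at hat
      have h2 : y ≤ 2 * t := by nlinarith
      have h3 : y * Real.exp (-y) ≤ th C p (j + 1) x v := by
        refine le_trans ?_ (hy ▸ th_ge_exp C hp0 hp1 hm hxv)
        have h4 := Real.add_one_le_exp y
        have h5 : Real.exp (-y) * Real.exp y = 1 := by rw [← Real.exp_add]; simp
        have h6 := mul_le_mul_of_nonneg_left h4 (Real.exp_pos (-y)).le
        linarith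
      have h4 := Real.log_le_log (by positivity) h3
      rw [Real.log_mul hy0.ne' (Real.exp_pos _).ne', Real.log_exp] at h4
      linarith

lemma jensen (C : CS G) {p : ℝ} (hp0 : 0 < p) (hp1 : p ≤ 1)
    (hm : ∀ {x v}, G.Adj x v → 1 ≤ C.m v) (j : ℕ) {x v : V} (hxv : G.Adj x v) :
    Real.log (p * C.m v) + ∑ w ∈ C.Ch x v, Real.log (th C p j v w) / C.m v ≤
      Real.log (∑ w ∈ C.Ch x v, p * th C p j v w) := by
  have hm1 : (0 : ℝ) < C.m v := by
    have := hm hxv
    exact_mod_cast this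
  have h1 := strictConcaveOn_log_Ioi.concaveOn.le_map_sum (t := C.Ch x v)
    (w := fun _ => 1 / (C.m v : ℝ)) (p := fun w => th C p j v w) (fun _ _ => by positivity)
    (by rw [sum_const, nsmul_eq_mul, C.card hxv]; field_simp)
    (fun w hw => (th_bounds C hp0 hp1 hm j v w (C.adj hxv hw)).1)
  simp only [smul_eq_mul] at h1
  have hpos : 0 < ∑ w ∈ C.Ch x v, 1 / (C.m v : ℝ) * th C p j v w := by
    refine sum_pos (fun w hw => ?_) ?_
    · exact mul_pos (by positivity) (th_bounds C hp0 hp1 hm j v w (C.adj hxv hw)).1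
    · rw [← card_pos, C.card hxv]
      exact hm hxv
  have e1 : ∑ w ∈ C.Ch x v, p * th C p j v w =
      (p * C.m v) * ∑ w ∈ C.Ch x v, 1 / (C.m v : ℝ) * th C p j v w := by
    rw [mul_sum]
    refine sum_congr rfl fun w _ => ?_
    field_simp
  rw [e1, Real.log_mul (by positivity) hpos.ne']
  have e2 : ∑ w ∈ C.Ch x v, Real.log (th C p j v w) / C.m v =
      ∑ w ∈ C.Ch x v, 1 / (C.m v : ℝ) * Real.log (th C p j v w) := by
    refine sum_congr rfl fun w _ => ?_
    ring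
  rw [e2]
  linarith

/-- **many double darts** -/
theorem many_double (C : CS G) {p : ℝ} (hp0 : 0 < p) (hp1 : p ≤ 1)
    (hm : ∀ {x v}, G.Adj x v → 1 ≤ C.m v) (hm9 : ∀ v, C.m v ≤ 9) {δ : ℝ} (hδ0 : 0 < δ)
    (hδ1 : δ ≤ 1)
    (hδ : δ * ∑ v, ((nbr G v).card : ℝ) ≤ ∑ v, ∑ _x ∈ nbr G v, Real.log (p * C.m v)) (j : ℕ) :
    3 / 4 * δ * ∑ v, ((nbr G v).card : ℝ) ≤
      Real.log 9 * ∑ v, ∑ x ∈ nbr G v, if Dbl C p ((δ / 8) ^ 2 / 9) j x v then (1 : ℝ) else 0 := by
  have e0 : ∑ v, ((nbr G v).card : ℝ) = ∑ v, ∑ _x ∈ nbr G v, (1 : ℝ) := by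
    simp
  -- Jensen and stationarity
  have h1 : ∑ v, ∑ _x ∈ nbr G v, Real.log (p * C.m v) +
      ∑ v, ∑ x ∈ nbr G v, Real.log (th C p j x v) ≤
      ∑ v, ∑ x ∈ nbr G v, Real.log (∑ w ∈ C.Ch x v, p * th C p j v w) := by
    have e1 : ∑ v, ∑ x ∈ nbr G v, Real.log (th C p j x v) =
        ∑ v, ∑ x ∈ nbr G v, ∑ w ∈ C.Ch x v, Real.log (th C p j v w) / C.m v := by
      rw [flow C fun v w => Real.log (th C p j v w) / C.m v, dart_swap]
      refine sum_congr rfl fun v _ => sum_congr rfl fun w hw => ?_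
      have : (0 : ℝ) < C.m v := by
        have := hm (mem_nbr.mp hw).symm
        exact_mod_cast this
      field_simp
    rw [e1, ← sum_add_distrib]
    refine sum_le_sum fun v _ => ?_
    rw [← sum_add_distrib]
    exact sum_le_sum fun x hx => jensen C hp0 hp1 hm j (mem_nbr.mp hx).symm
  have h2 : ∑ v, ∑ x ∈ nbr G v, Real.log (th C p (j + 1) x v) ≤
      ∑ v, ∑ x ∈ nbr G v, Real.log (th C p j x v) := by
    refine sum_le_sum fun v _ => sum_le_sum fun x hx => ?_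
    have hxv := (mem_nbr.mp hx).symm
    exact Real.log_le_log (th_bounds C hp0 hp1 hm (j + 1) x v hxv).1
      (th_anti C hp0 hp1 hm j x v hxv)
  have h3 : ∑ v, ∑ x ∈ nbr G v, (Real.log (∑ w ∈ C.Ch x v, p * th C p j v w) -
      Real.log (th C p (j + 1) x v)) ≤
      ∑ v, ∑ x ∈ nbr G v, (Real.log 9 * (if Dbl C p ((δ / 8) ^ 2 / 9) j x v then (1 : ℝ) else 0) +
        δ / 4 * 1) := by
    refine sum_le_sum fun v _ => sum_le_sum fun x hx => ?_
    refine (loss_le C hp0 hp1 hm hm9 (t := δ / 8) (by positivity) (by linarith) j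
      (mem_nbr.mp hx).symm).trans ?_
    have h9 : 0 < Real.log 9 := Real.log_pos (by norm_num)
    split_ifs
    · linarith
    · linarith
  have e5 : ∀ x v, ∑ w ∈ C.Ch x v, p * th C p j v w = p * ∑ w ∈ C.Ch x v, th C p j v w :=
    fun x v => (mul_sum _ _ _).symm
  simp_rw [e5] at h1
  simp_rw [sum_sub_distrib] at h3
  simp_rw [sum_add_distrib, ← mul_sum] at h3
  rw [e0] at hδ ⊢
  have e3 : 3 / 4 * δ * ∑ v, ∑ _x ∈ nbr G v, (1 : ℝ) =
      δ * ∑ v, ∑ _x ∈ nbr G v, (1 : ℝ) - δ / 4 * ∑ v, ∑ _x ∈ nbr G v, (1 : ℝ) := by ring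
  rw [e3]
  linarith

/-- **many edges that are good in both directions** -/
theorem many_both (C : CS G) {p : ℝ} (hp0 : 0 < p) (hp1 : p ≤ 1)
    (hm : ∀ {x v}, G.Adj x v → 1 ≤ C.m v) (hm9 : ∀ v, C.m v ≤ 9) {δ : ℝ} (hδ0 : 0 < δ)
    (hδ1 : δ ≤ 1)
    (hδ : δ * ∑ v, ((nbr G v).card : ℝ) ≤ ∑ v, ∑ _x ∈ nbr G v, Real.log (p * C.m v)) (j : ℕ) :
    δ / 30 * ((δ / 8) ^ 2 / 9) ^ 2 * ∑ v, ((nbr G v).card : ℝ) ≤
      ∑ v, ∑ w ∈ nbr G v, th C p j v w * th C p j w v := by
  obtain ⟨η, hη⟩ : ∃ η, η = (δ / 8) ^ 2 / 9 := ⟨_, rfl⟩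
  have hη0 : 0 < η := by rw [hη]; positivity
  have h1 := many_double C hp0 hp1 hm hm9 hδ0 hδ1 hδ j
  rw [← hη] at h1 ⊢
  have h2 : ∑ v, ∑ x ∈ nbr G v, (if Dbl C p η j x v then (1 : ℝ) else 0) ≤
      ∑ v, ∑ x ∈ nbr G v, ∑ w ∈ C.Ch x v,
        if η ≤ th C p j v w ∧ η ≤ th C p j w v then (1 : ℝ) else 0 := by
    refine sum_le_sum fun v _ => sum_le_sum fun x hx => ?_
    have hxv := (mem_nbr.mp hx).symm
    have hnn : 0 ≤ ∑ w ∈ C.Ch x v, if η ≤ th C p j v w ∧ η ≤ th C p j w v then (1 : ℝ) else 0 :=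
      sum_nonneg fun w _ => by split_ifs <;> norm_num
    split_ifs with hD
    · obtain ⟨w₁, hw₁, w₂, hw₂, hne, g1, g2⟩ := hD
      have key : ∀ a b, a ∈ C.Ch x v → b ∈ C.Ch x v → b ∈ C.Ch a v → η ≤ p * th C p j v a →
          η ≤ p * th C p j v b → (1 : ℝ) ≤
          ∑ w ∈ C.Ch x v, if η ≤ th C p j v w ∧ η ≤ th C p j w v then (1 : ℝ) else 0 := by
        intro a b ha hb hab ga gb
        have hva := C.adj hxv ha
        have e1 : η ≤ th C p j v a := by
          refine ga.trans ?_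
          have := (th_bounds C hp0 hp1 hm j v a hva).1
          nlinarith
        have e2 : η ≤ th C p j a v :=
          (gb.trans (th_ge_child C hp0 hp1 hm hva.symm hab)).trans
            (th_anti C hp0 hp1 hm j a v hva.symm)
        calc (1 : ℝ) = if η ≤ th C p j v a ∧ η ≤ th C p j a v then (1 : ℝ) else 0 := by
              rw [if_pos ⟨e1, e2⟩]
          _ ≤ _ := single_le_sum
              (f := fun w => if η ≤ th C p j v w ∧ η ≤ th C p j w v then (1 : ℝ) else 0)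
              (fun w _ => by split_ifs <;> norm_num) ha
      rcases C.cyc hxv hw₁ hw₂ hne with h | h
      · exact key w₁ w₂ hw₁ hw₂ h g1 g2
      · exact key w₂ w₁ hw₂ hw₁ h g2 g1
    · exact hnn
  rw [flow C fun v w => if η ≤ th C p j v w ∧ η ≤ th C p j w v then (1 : ℝ) else 0] at h2
  have h3 : ∑ v, ∑ w ∈ nbr G v, (C.m v : ℝ) *
      (if η ≤ th C p j v w ∧ η ≤ th C p j w v then (1 : ℝ) else 0) ≤
      9 / η ^ 2 * ∑ v, ∑ w ∈ nbr G v, th C p j v w * th C p j w v := by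
    rw [mul_sum]
    refine sum_le_sum fun v _ => ?_
    rw [mul_sum]
    refine sum_le_sum fun w hw => ?_
    have hvw := mem_nbr.mp hw
    have b1 := (th_bounds C hp0 hp1 hm j v w hvw).1
    have b2 := (th_bounds C hp0 hp1 hm j w v hvw.symm).1
    have hm' : (C.m v : ℝ) ≤ 9 := by exact_mod_cast hm9 v
    split_ifs with h
    · have : η ^ 2 ≤ th C p j v w * th C p j w v := by
        rw [sq]
        exact mul_le_mul h.1 h.2 hη0.le b1.le
      calc (C.m v : ℝ) * 1 ≤ 9 := by linarith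
        _ = 9 / η ^ 2 * η ^ 2 := by field_simp
        _ ≤ _ := mul_le_mul_of_nonneg_left this (by positivity)
    · rw [mul_zero]
      positivity
  have h9 : Real.log 9 ≤ 5 / 2 := by
    have e1 : Real.log 9 = 2 * Real.log 3 := by
      rw [show (9 : ℝ) = 3 ^ 2 by norm_num, Real.log_pow]
      push_cast
      ring
    have e2 : Real.log 3 ≤ 5 / 4 := by
      rw [Real.log_le_iff_le_exp (by norm_num)]
      have e3 : (2.7182818283 : ℝ) < Real.exp 1 := Real.exp_one_gt_d9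
      have e4 : Real.exp (5 / 4) = Real.exp 1 * Real.exp (1 / 4) := by
        rw [← Real.exp_add]; norm_num
      have e5 := Real.add_one_le_exp (1 / 4 : ℝ)
      rw [e4]
      nlinarith
    linarith
  have h9' : 0 < Real.log 9 := Real.log_pos (by norm_num)
  obtain ⟨Q, hQ⟩ : ∃ Q, Q = ∑ v, ∑ w ∈ nbr G v, th C p j v w * th C p j w v := ⟨_, rfl⟩
  have hQ0 : 0 ≤ Q := by
    rw [hQ]
    refine sum_nonneg fun v _ => sum_nonneg fun w hw => ?_
    have hvw := mem_nbr.mp hw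
    exact mul_nonneg (th_bounds C hp0 hp1 hm j v w hvw).1.le
      (th_bounds C hp0 hp1 hm j w v hvw.symm).1.le
  rw [← hQ] at h3 ⊢
  have h4 : 3 / 4 * δ * ∑ v, ((nbr G v).card : ℝ) ≤ 5 / 2 * (9 / η ^ 2 * Q) := by
    refine h1.trans ?_
    refine mul_le_mul h9 (h2.trans h3) ?_ (by norm_num)
    exact sum_nonneg fun v _ => sum_nonneg fun x _ => by split_ifs <;> norm_num
  have h5 := mul_le_mul_of_nonneg_left h4 (by positivity : (0 : ℝ) ≤ η ^ 2 / (45 / 2))
  have e5 : η ^ 2 / (45 / 2) * (5 / 2 * (9 / η ^ 2 * Q)) = Q := by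
    field_simp
    ring
  have e6 : η ^ 2 / (45 / 2) * (3 / 4 * δ * ∑ v, ((nbr G v).card : ℝ)) =
      δ / 30 * η ^ 2 * ∑ v, ((nbr G v).card : ℝ) := by ring
  rw [e5, e6] at h5
  exact h5

end Pool.Agent.Work.MP_6229d2_co.Thr
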